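import Pool.Agent.Helper10.Sw.Gram

/-! Codes of betweenness structures on at most six points. -/

set_option autoImplicit false
set_option maxRecDepth 100000
set_option linter.unusedVariables false
set_option linter.unusedSectionVars false

namespace Pool.Agent.Helper10.Bt
open Pool.Agent.Helper10.Sw

/-- the digit of a triple after the exchange of the first two points (0: no point is between the
others, 1, 2, 3: the first, second, third point is between the others) -/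
def s12 (v : ℕ) : ℕ := cond (Nat.beq v 1) 2 (cond (Nat.beq v 2) 1 v)
/-- the digit of a triple after the exchange of the last two points -/
def s23 (v : ℕ) : ℕ := cond (Nat.beq v 2) 3 (cond (Nat.beq v 3) 2 v)

/-- code of four digits -/
def c4 (a b c d : ℕ) : ℕ :=
  Nat.add a (Nat.add (Nat.mul 4 b) (Nat.add (Nat.mul 16 c) (Nat.mul 64 d)))
/-- code of six digits -/
def c6 (a b c d e f : ℕ) : ℕ :=
  Nat.add (c4 a b c d) (Nat.add (Nat.mul 256 e) (Nat.mul 1024 f))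

theorem c4_lt {a b c d : ℕ} (ha : a < 4) (hb : b < 4) (hc : c < 4) (hd : d < 4) :
    c4 a b c d < 256 := by
  show a + (4 * b + (16 * c + 64 * d)) < 256
  omega

theorem c6_lt {a b c d e f : ℕ} (ha : a < 4) (hb : b < 4) (hc : c < 4) (hd : d < 4) (he : e < 4)
    (hf : f < 4) : c6 a b c d e f < 4096 := by
  show (a + (4 * b + (16 * c + 64 * d))) + (256 * e + 1024 * f) < 4096
  omega

/-- all compatible values of the digits of `(x, y, z)`, `(x, z, y)`, `(y, z, x)` and of the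
indicator of non-collinearity -/
def A4 (f : ℕ → ℕ → ℕ → ℕ → Bool) : Bool :=
  and (f 0 0 0 1) (and (f 1 1 3 0) (and (f 2 3 1 0) (f 3 2 2 0)))

def P4 (a b c h : ℕ) : Prop := (a = 0 ∧ b = 0 ∧ c = 0 ∧ h = 1) ∨ (a = 1 ∧ b = 1 ∧ c = 3 ∧ h = 0) ∨
  (a = 2 ∧ b = 3 ∧ c = 1 ∧ h = 0) ∨ (a = 3 ∧ b = 2 ∧ c = 2 ∧ h = 0)

theorem A4_true {f : ℕ → ℕ → ℕ → ℕ → Bool} (H : A4 f = true) {a b c h : ℕ} (hp : P4 a b c h) :
    f a b c h = true := by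
  have h' : (f 0 0 0 1 && (f 1 1 3 0 && (f 2 3 1 0 && f 3 2 2 0))) = true := H
  simp only [Bool.and_eq_true] at h'
  rcases hp with ⟨rfl, rfl, rfl, rfl⟩ | ⟨rfl, rfl, rfl, rfl⟩ | ⟨rfl, rfl, rfl, rfl⟩ |
    ⟨rfl, rfl, rfl, rfl⟩
  exacts [h'.1, h'.2.1, h'.2.2.1, h'.2.2.2]

theorem P4_dig : ∀ a < 4, P4 a (s23 a) (s23 (s12 a)) (if a = 0 then 1 else 0) := by
  unfold P4
  decide

theorem P4_of {a b c h : ℕ} (ha : a < 4) (hb : b = s23 a) (hc : c = s23 (s12 a))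
    (hh : h = if a = 0 then 1 else 0) : P4 a b c h := by
  subst hb hc hh
  exact P4_dig a ha

/-- evaluates the number before it is used -/
def wl (n : ℕ) (f : ℕ → ℕ) : ℕ := Nat.rec (f 0) (fun m _ => f (Nat.succ m)) n

theorem wl_eq (n : ℕ) (f : ℕ → ℕ) : wl n f = f n := by cases n <;> rfl

/-- entry of a table in terms of the codes of flags -/
def lk2 (X D T i j : ℕ) : ℕ :=
  wl (fx X i) fun a => wl (fx X j) fun b => en (rw' (Nat.mul 64 D) T a) b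

theorem lk2_eq (X D T i j : ℕ) : lk2 X D T i j = lk X D T i j := by
  unfold lk2
  rw [wl_eq, wl_eq]
  rfl

variable {V : Type}

def F4v (t : V → V → V → ℕ) (q : ℕ → ℕ → ℕ → ℕ) (x0 x1 x2 x3 u v : V) : ℕ :=
  q (c4 (t x0 x1 x2) (t x0 x1 x3) (t x0 x2 x3) (t x1 x2 x3))
    (c6 (t x0 x1 u) (t x0 x2 u) (t x1 x2 u) (t x0 x3 u) (t x1 x3 u) (t x2 x3 u))
    (c6 (t x0 x1 v) (t x0 x2 v) (t x1 x2 v) (t x0 x3 v) (t x1 x3 v) (t x2 x3 v))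

def F2v (t : V → V → V → ℕ) (p : ℕ → ℕ → ℕ) (a b u v w z : V) : ℕ :=
  p (c4 (t a b u) (t a b v) (t u v a) (t u v b)) (c4 (t a b w) (t a b z) (t w z a) (t w z b))

def leaf (K : ℕ) (q : ℕ → ℕ → ℕ → ℕ) (p : ℕ → ℕ → ℕ) (a012 b012 c012 h012 a013 b013 c013 h013 a014 b014 c014 h014 a015 b015 c015 h015 a023 b023 c023 h023 a024 b024 c024 h024 a025 b025 c025 h025 a034 b034 c034 h034 a035 b035 c035 h035 a045 b045 c045 h045 a123 b123 c123 h123 a124 b124 c124 h124 a125 b125 c125 h125 a134 b134 c134 h134 a135 b135 c135 h135 a145 b145 c145 h145 a234 b234 c234 h234 a235 b235 c235 h235 a245 b245 c245 h245 a345 b345 c345 h345 : ℕ) : ℕ :=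
  Nat.add (Nat.mul K (Nat.add (h012)
    (Nat.add (h013)
    (Nat.add (h014)
    (Nat.add (h015)
    (Nat.add (h023)
    (Nat.add (h024)
    (Nat.add (h025)
    (Nat.add (h034)
    (Nat.add (h035)
    (Nat.add (h045)
    (Nat.add (h123)
    (Nat.add (h124)
    (Nat.add (h125)
    (Nat.add (h134)
    (Nat.add (h135)
    (Nat.add (h145)
    (Nat.add (h234)
    (Nat.add (h235)
    (Nat.add (h245)
    (h345)))))))))))))))))))))
    (Nat.add (q (c4 a012 a013 a023 a123) (c6 a014 a024 a124 a034 a134 a234) (c6 a015 a025 a125 a035 a135 a235))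
    (Nat.add (q (c4 a012 a014 a024 a124) (c6 a013 a023 a123 b034 b134 b234) (c6 a015 a025 a125 a045 a145 a245))
    (Nat.add (q (c4 a012 a015 a025 a125) (c6 a013 a023 a123 b035 b135 b235) (c6 a014 a024 a124 b045 b145 b245))
    (Nat.add (q (c4 a013 a014 a034 a134) (c6 a012 b023 b123 b024 b124 c234) (c6 a015 a035 a135 a045 a145 a345))
    (Nat.add (q (c4 a013 a015 a035 a135) (c6 a012 b023 b123 b025 b125 c235) (c6 a014 a034 a134 b045 b145 b345))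
    (Nat.add (q (c4 a014 a015 a045 a145) (c6 a012 b024 b124 b025 b125 c245) (c6 a013 b034 b134 b035 b135 c345))
    (Nat.add (q (c4 a023 a024 a034 a234) (c6 b012 b013 c123 b014 c124 c134) (c6 a025 a035 a235 a045 a245 a345))
    (Nat.add (q (c4 a023 a025 a035 a235) (c6 b012 b013 c123 b015 c125 c135) (c6 a024 a034 a234 b045 b245 b345))
    (Nat.add (q (c4 a024 a025 a045 a245) (c6 b012 b014 c124 b015 c125 c145) (c6 a023 b034 b234 b035 b235 c345))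
    (Nat.add (q (c4 a034 a035 a045 a345) (c6 b013 b014 c134 b015 c135 c145) (c6 b023 b024 c234 b025 c235 c245))
    (Nat.add (q (c4 a123 a124 a134 a234) (c6 c012 c013 c023 c014 c024 c034) (c6 a125 a135 a235 a145 a245 a345))
    (Nat.add (q (c4 a123 a125 a135 a235) (c6 c012 c013 c023 c015 c025 c035) (c6 a124 a134 a234 b145 b245 b345))
    (Nat.add (q (c4 a124 a125 a145 a245) (c6 c012 c014 c024 c015 c025 c045) (c6 a123 b134 b234 b135 b235 c345))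
    (Nat.add (q (c4 a134 a135 a145 a345) (c6 c013 c014 c034 c015 c035 c045) (c6 b123 b124 c234 b125 c235 c245))
    (Nat.add (q (c4 a234 a235 a245 a345) (c6 c023 c024 c034 c025 c035 c045) (c6 c123 c124 c134 c125 c135 c145))
    (Nat.add (p (c4 a012 a013 c023 c123) (c4 a014 a015 c045 c145))
    (Nat.add (p (c4 a012 a014 c024 c124) (c4 a013 a015 c035 c135))
    (Nat.add (p (c4 a012 a015 c025 c125) (c4 a013 a014 c034 c134))
    (Nat.add (p (c4 b012 a023 c013 b123) (c4 a024 a025 c045 c245))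
    (Nat.add (p (c4 b012 a024 c014 b124) (c4 a023 a025 c035 c235))
    (Nat.add (p (c4 b012 a025 c015 b125) (c4 a023 a024 c034 c234))
    (Nat.add (p (c4 b013 b023 c012 a123) (c4 a034 a035 c045 c345))
    (Nat.add (p (c4 b013 a034 c014 b134) (c4 b023 a035 c025 b235))
    (Nat.add (p (c4 b013 a035 c015 b135) (c4 b023 a034 c024 b234))
    (Nat.add (p (c4 b014 b024 c012 a124) (c4 b034 a045 c035 b345))
    (Nat.add (p (c4 b014 b034 c013 a134) (c4 b024 a045 c025 b245))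
    (Nat.add (p (c4 b014 a045 c015 b145) (c4 b024 b034 c023 a234))
    (Nat.add (p (c4 b015 b025 c012 a125) (c4 b035 b045 c034 a345))
    (Nat.add (p (c4 b015 b035 c013 a135) (c4 b025 b045 c024 a245))
    (Nat.add (p (c4 b015 b045 c014 a145) (c4 b025 b035 c023 a235))
    (Nat.add (p (c4 c012 a123 b013 b023) (c4 a124 a125 c145 c245))
    (Nat.add (p (c4 c012 a124 b014 b024) (c4 a123 a125 c135 c235))
    (Nat.add (p (c4 c012 a125 b015 b025) (c4 a123 a124 c134 c234))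
    (Nat.add (p (c4 c013 b123 b012 a023) (c4 a134 a135 c145 c345))
    (Nat.add (p (c4 c013 a134 b014 b034) (c4 b123 a135 c125 b235))
    (Nat.add (p (c4 c013 a135 b015 b035) (c4 b123 a134 c124 b234))
    (Nat.add (p (c4 c014 b124 b012 a024) (c4 b134 a145 c135 b345))
    (Nat.add (p (c4 c014 b134 b013 a034) (c4 b124 a145 c125 b245))
    (Nat.add (p (c4 c014 a145 b015 b045) (c4 b124 b134 c123 a234))
    (Nat.add (p (c4 c015 b125 b012 a025) (c4 b135 b145 c134 a345))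
    (Nat.add (p (c4 c015 b135 b013 a035) (c4 b125 b145 c124 a245))
    (Nat.add (p (c4 c015 b145 b014 a045) (c4 b125 b135 c123 a235))
    (Nat.add (p (c4 c023 c123 a012 a013) (c4 a234 a235 c245 c345))
    (Nat.add (p (c4 c023 a234 b024 b034) (c4 c123 a235 b125 b135))
    (Nat.add (p (c4 c023 a235 b025 b035) (c4 c123 a234 b124 b134))
    (Nat.add (p (c4 c024 c124 a012 a014) (c4 b234 a245 c235 b345))
    (Nat.add (p (c4 c024 b234 b023 a034) (c4 c124 a245 b125 b145))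
    (Nat.add (p (c4 c024 a245 b025 b045) (c4 c124 b234 b123 a134))
    (Nat.add (p (c4 c025 c125 a012 a015) (c4 b235 b245 c234 a345))
    (Nat.add (p (c4 c025 b235 b023 a035) (c4 c125 b245 b124 a145))
    (Nat.add (p (c4 c025 b245 b024 a045) (c4 c125 b235 b123 a135))
    (Nat.add (p (c4 c034 c134 a013 a014) (c4 c234 a345 b235 b245))
    (Nat.add (p (c4 c034 c234 a023 a024) (c4 c134 a345 b135 b145))
    (Nat.add (p (c4 c034 a345 b035 b045) (c4 c134 c234 a123 a124))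
    (Nat.add (p (c4 c035 c135 a013 a015) (c4 c235 b345 b234 a245))
    (Nat.add (p (c4 c035 c235 a023 a025) (c4 c135 b345 b134 a145))
    (Nat.add (p (c4 c035 b345 b034 a045) (c4 c135 c235 a123 a125))
    (Nat.add (p (c4 c045 c145 a014 a015) (c4 c245 c345 a234 a235))
    (Nat.add (p (c4 c045 c245 a024 a025) (c4 c145 c345 a134 a135))
    (p (c4 c045 c345 a034 a035) (c4 c145 c245 a124 a125)))))))))))))))))))))))))))))))))))))))))))))))))))))))))))))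

def EE (F4 F2 : V → V → V → V → V → V → ℕ) (H : V → V → V → ℕ) (K : ℕ)
    (x0 x1 x2 x3 x4 x5 : V) : ℕ :=
  K * (H x0 x1 x2 + (H x0 x1 x3 + (H x0 x1 x4 + (H x0 x1 x5 + (H x0 x2 x3 + (H x0 x2 x4 + (H x0 x2 x5 + (H x0 x3 x4 + (H x0 x3 x5 + (H x0 x4 x5 + (H x1 x2 x3 + (H x1 x2 x4 + (H x1 x2 x5 + (H x1 x3 x4 + (H x1 x3 x5 + (H x1 x4 x5 + (H x2 x3 x4 + (H x2 x3 x5 + (H x2 x4 x5 + (H x3 x4 x5)))))))))))))))))))) +
  (F4 x0 x1 x2 x3 x4 x5 + (F4 x0 x1 x2 x4 x3 x5 + (F4 x0 x1 x2 x5 x3 x4 + (F4 x0 x1 x3 x4 x2 x5 + (F4 x0 x1 x3 x5 x2 x4 + (F4 x0 x1 x4 x5 x2 x3 + (F4 x0 x2 x3 x4 x1 x5 + (F4 x0 x2 x3 x5 x1 x4 + (F4 x0 x2 x4 x5 x1 x3 + (F4 x0 x3 x4 x5 x1 x2 + (F4 x1 x2 x3 x4 x0 x5 + (F4 x1 x2 x3 x5 x0 x4 + (F4 x1 x2 x4 x5 x0 x3 + (F4 x1 x3 x4 x5 x0 x2 + (F4 x2 x3 x4 x5 x0 x1 + (F2 x0 x1 x2 x3 x4 x5 + (F2 x0 x1 x2 x4 x3 x5 + (F2 x0 x1 x2 x5 x3 x4 + (F2 x0 x2 x1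 x3 x4 x5 + (F2 x0 x2 x1 x4 x3 x5 + (F2 x0 x2 x1 x5 x3 x4 + (F2 x0 x3 x1 x2 x4 x5 + (F2 x0 x3 x1 x4 x2 x5 + (F2 x0 x3 x1 x5 x2 x4 + (F2 x0 x4 x1 x2 x3 x5 + (F2 x0 x4 x1 x3 x2 x5 + (F2 x0 x4 x1 x5 x2 x3 + (F2 x0 x5 x1 x2 x3 x4 + (F2 x0 x5 x1 x3 x2 x4 + (F2 x0 x5 x1 x4 x2 x3 + (F2 x1 x2 x0 x3 x4 x5 + (F2 x1 x2 x0 x4 x3 x5 + (F2 x1 x2 x0 x5 x3 x4 + (F2 x1 x3 x0 x2 x4 x5 + (F2 x1 x3 x0 x4 x2 x5 + (F2 x1 x3 x0 x5 x2 x4 + (F2 x1 x4 x0 x2 x3 x5 + (F2 x1 x4 x0 x3 x2 x5 + (F2 x1 x4 x0 x5 x2 x3 + (F2 x1 x5 x0 x2 x3 x4 + (F2 x1 x5 x0 x3 x2 x4 + (F2 x1 x5 x0 x4 x2 x3 + (F2 x2 x3 x0 x1 x4 x5 + (F2 x2 x3 x0 x4 x1 x5 + (F2 x2 x3 x0 x5 x1 x4 + (F2 x2 x4 x0 x1 x3 x5 + (F2 x2 x4 x0 x3 x1 x5 + (F2 x2 x4 x0 x5 x1 x3 + (F2 x2 x5 x0 x1 x3 x4 + (F2 x2 x5 x0 x3 x1 x4 + (F2 x2 x5 x0 x4 x1 x3 + (F2 x3 x4 x0 x1 x2 x5 + (F2 x3 x4 x0 x2 x1 x5 + (F2 x3 x4 x0 x5 x1 x2 + (F2 x3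 x5 x0 x1 x2 x4 + (F2 x3 x5 x0 x2 x1 x4 + (F2 x3 x5 x0 x4 x1 x2 + (F2 x4 x5 x0 x1 x2 x3 + (F2 x4 x5 x0 x2 x1 x3 + (F2 x4 x5 x0 x3 x1 x2))))))))))))))))))))))))))))))))))))))))))))))))))))))))))))

theorem EE_leaf (t h : V → V → V → ℕ) (q : ℕ → ℕ → ℕ → ℕ) (p : ℕ → ℕ → ℕ) (K : ℕ)
    (x0 x1 x2 x3 x4 x5 : V) :
    EE (F4v t q) (F2v t p) h K x0 x1 x2 x3 x4 x5 = leaf K q p (t x0 x1 x2) (t x0 x2 x1) (t x1 x2 x0) (h x0 x1 x2) (t x0 x1 x3) (t x0 x3 x1) (t x1 x3 x0) (h x0 x1 x3) (t x0 x1 x4) (t x0 x4 x1) (t x1 x4 x0) (h x0 x1 x4) (t x0 x1 x5) (t x0 x5 x1) (t x1 x5 x0) (h x0 x1 x5) (t x0 x2 x3) (t x0 x3 x2) (t x2 x3 x0) (h x0 x2 x3) (t x0 x2 x4) (t x0 x4 x2) (t x2 x4 x0) (h x0 x2 x4) (t x0 x2 x5) (t x0 x5 x2) (t x2 x5 x0) (h x0 x2 x5) (t x0 x3 x4) (t x0 x4 x3) (t x3 x4 x0) (h x0 x3 x4) (t x0 x3 x5) (t x0 x5 x3) (t x3 x5 x0) (h x0 x3 x5) (t x0 x4 x5) (t x0 x5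 x4) (t x4 x5 x0) (h x0 x4 x5) (t x1 x2 x3) (t x1 x3 x2) (t x2 x3 x1) (h x1 x2 x3) (t x1 x2 x4) (t x1 x4 x2) (t x2 x4 x1) (h x1 x2 x4) (t x1 x2 x5) (t x1 x5 x2) (t x2 x5 x1) (h x1 x2 x5) (t x1 x3 x4) (t x1 x4 x3) (t x3 x4 x1) (h x1 x3 x4) (t x1 x3 x5) (t x1 x5 x3) (t x3 x5 x1) (h x1 x3 x5) (t x1 x4 x5) (t x1 x5 x4) (t x4 x5 x1) (h x1 x4 x5) (t x2 x3 x4) (t x2 x4 x3) (t x3 x4 x2) (h x2 x3 x4) (t x2 x3 x5) (t x2 x5 x3) (t x3 x5 x2) (h x2 x3 x5) (t x2 x4 x5) (t x2 x5 x4) (t x4 x5 x2) (h x2 x4 x5) (t x3 x4 x5) (t x3 x5 x4) (t x4 x5 x3) (h x3 x4 x5) := rfl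

end Pool.Agent.Helper10.Bt
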