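import Pool.Agent.Helper10.Bt.Q

/-! Check of structures on six points, part 47. -/

set_option autoImplicit false
set_option maxRecDepth 1000000
set_option linter.all false

namespace Pool.Agent.Helper10.Bt
open Pool.Agent.Helper10.Sw

def T47_0 : ℕ := 0x200100

theorem a47_0 : chkAll 9105446378665370970414495782467130278682685432304100497532396655114461058942 1945555039024054272 298318439317021655040 q p T47_0 2 = true := by decide +kernel

def T47_1 : ℕ := 0x21000000000000000000010000000000000800000000000000000000000000

theorem a47_1 : chkAll 9105446378665370970414495782467130278682685432304100497532396655114461058942 1945555039024054272 298318439317021655040 q p T47_1 2 = true := by decide +kernel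

end Pool.Agent.Helper10.Bt
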