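import Pool.Agent.Helper10.Bt.Defs

/-! Averaging over all sextuples of points. -/

set_option autoImplicit false
set_option maxRecDepth 100000
set_option linter.unusedVariables false
set_option linter.unusedSectionVars false
open Finset

namespace Pool.Agent.Helper10.Bt
open Pool.Agent.Helper10.Sw (Psd psd)

theorem psum {V : Type} [Fintype V] (F : V → V → V → V → V → V → ℤ) (g : Fin 6 → Fin 6)
    (hg : Function.Bijective g) :
    ∑ x : Fin 6 → V, F (x (g 0)) (x (g 1)) (x (g 2)) (x (g 3)) (x (g 4)) (x (g 5))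
      = ∑ x : Fin 6 → V, F (x 0) (x 1) (x 2) (x 3) (x 4) (x 5) := by
  have h := Equiv.sum_comp (Equiv.arrowCongr (Equiv.ofBijective g hg).symm (Equiv.refl V))
    (fun x => F (x 0) (x 1) (x 2) (x 3) (x 4) (x 5))
  rw [← h]
  rfl

def tup6 (V : Type) : (Fin 6 → V) ≃ V × V × V × V × V × V where
  toFun x := (x 0, x 1, x 2, x 3, x 4, x 5)
  invFun p := ![p.1, p.2.1, p.2.2.1, p.2.2.2.1, p.2.2.2.2.1, p.2.2.2.2.2]
  left_inv x := by funext i; fin_cases i <;> rfl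
  right_inv p := rfl

theorem conv {V : Type} [Fintype V] (F : V → V → V → V → V → V → ℤ) :
    ∑ x : Fin 6 → V, F (x 0) (x 1) (x 2) (x 3) (x 4) (x 5)
      = ∑ a, ∑ b, ∑ c, ∑ d, ∑ e, ∑ f, F a b c d e f := by
  rw [← Equiv.sum_comp (tup6 V).symm]
  simp only [Fintype.sum_prod_type]
  rfl

section
variable {V : Type} [Fintype V] (t h : V → V → V → ℕ) (q : ℕ → ℕ → ℕ → ℕ) (p : ℕ → ℕ → ℕ)

theorem low4 (ht : ∀ a b c, t a b c < 4) (O : ℕ) (hq : ∀ c < 256, Psd 4096 O (q c)) :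
    (O : ℤ) * (Fintype.card V : ℤ) ^ 6 ≤
      ∑ x : Fin 6 → V, (F4v t q (x 0) (x 1) (x 2) (x 3) (x 4) (x 5) : ℤ) := by
  rw [conv (fun a b c d e f => (F4v t q a b c d e f : ℤ))]
  have e : (O : ℤ) * (Fintype.card V : ℤ) ^ 6 = ∑ a : V, ∑ b : V, ∑ c : V, ∑ d : V, ∑ e : V,
      ∑ f : V, (O : ℤ) := by
    simp only [sum_const, card_univ, nsmul_eq_mul]
    ring
  rw [e]
  refine sum_le_sum fun a _ => sum_le_sum fun b _ => sum_le_sum fun c _ => sum_le_sum fun d _ => ?_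
  obtain ⟨K, W, l, hl⟩ := hq (c4 (t a b c) (t a b d) (t a c d) (t b c d))
    (c4_lt (ht _ _ _) (ht _ _ _) (ht _ _ _) (ht _ _ _))
  have s := psd (range K) W (fun k u => l (c6 (t a b u) (t a c u) (t b c u) (t a d u) (t b d u)
    (t c d u)) k)
  have e2 : ∀ u v : V, (F4v t q a b c d u v : ℤ) = O + ∑ k ∈ range K,
      (W k : ℤ) * (l (c6 (t a b u) (t a c u) (t b c u) (t a d u) (t b d u) (t c d u)) k *
        l (c6 (t a b v) (t a c v) (t b c v) (t a d v) (t b d v) (t c d v)) k) := fun u v =>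
    hl _ _ (c6_lt (ht _ _ _) (ht _ _ _) (ht _ _ _) (ht _ _ _) (ht _ _ _) (ht _ _ _))
      (c6_lt (ht _ _ _) (ht _ _ _) (ht _ _ _) (ht _ _ _) (ht _ _ _) (ht _ _ _))
  simp only [e2, sum_add_distrib]
  linarith

theorem low2 (ht : ∀ a b c, t a b c < 4) (O : ℕ) (hp : Psd 256 O p) :
    (O : ℤ) * (Fintype.card V : ℤ) ^ 6 ≤
      ∑ x : Fin 6 → V, (F2v t p (x 0) (x 1) (x 2) (x 3) (x 4) (x 5) : ℤ) := by
  rw [conv (fun a b c d e f => (F2v t p a b c d e f : ℤ))]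
  have e : (O : ℤ) * (Fintype.card V : ℤ) ^ 6 = ∑ a : V, ∑ b : V, ∑ c : V, ∑ d : V, ∑ e : V,
      ∑ f : V, (O : ℤ) := by
    simp only [sum_const, card_univ, nsmul_eq_mul]
    ring
  rw [e]
  refine sum_le_sum fun a _ => sum_le_sum fun b _ => ?_
  obtain ⟨K, W, l, hl⟩ := hp
  have s := psd (V := V × V) (range K) W
    (fun k u => l (c4 (t a b u.1) (t a b u.2) (t u.1 u.2 a) (t u.1 u.2 b)) k)
  simp only [Fintype.sum_prod_type] at s
  have e2 : ∀ u v w z : V, (F2v t p a b u v w z : ℤ) = O + ∑ k ∈ range K,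
      (W k : ℤ) * (l (c4 (t a b u) (t a b v) (t u v a) (t u v b)) k *
        l (c4 (t a b w) (t a b z) (t w z a) (t w z b)) k) := fun u v w z =>
    hl _ _ (c4_lt (ht _ _ _) (ht _ _ _) (ht _ _ _) (ht _ _ _))
      (c4_lt (ht _ _ _) (ht _ _ _) (ht _ _ _) (ht _ _ _))
  simp only [e2, sum_add_distrib]
  linarith

theorem sumH : ∑ x : Fin 6 → V, (h (x 0) (x 1) (x 2) : ℤ) =
    (Fintype.card V : ℤ) ^ 3 * ∑ a, ∑ b, ∑ c, (h a b c : ℤ) := by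
  rw [conv (fun a b c _ _ _ => (h a b c : ℤ))]
  simp only [sum_const, card_univ, nsmul_eq_mul, mul_sum]
  refine sum_congr rfl fun a _ => sum_congr rfl fun b _ => sum_congr rfl fun c _ => by ring

theorem sumEE (F4 F2 : V → V → V → V → V → V → ℕ) (K : ℕ) :
    ∑ x : Fin 6 → V, (EE F4 F2 h K (x 0) (x 1) (x 2) (x 3) (x 4) (x 5) : ℤ) =
      20 * K * ((Fintype.card V : ℤ) ^ 3 * ∑ a, ∑ b, ∑ c, (h a b c : ℤ))
      + 15 * ∑ x : Fin 6 → V, (F4 (x 0) (x 1) (x 2) (x 3) (x 4) (x 5) : ℤ)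
      + 45 * ∑ x : Fin 6 → V, (F2 (x 0) (x 1) (x 2) (x 3) (x 4) (x 5) : ℤ) := by
  have f4 : ∀ i0 i1 i2 i3 i4 i5 : Fin 6, Function.Bijective ![i0, i1, i2, i3, i4, i5] →
      ∑ x : Fin 6 → V, (F4 (x i0) (x i1) (x i2) (x i3) (x i4) (x i5) : ℤ)
      = ∑ x : Fin 6 → V, (F4 (x 0) (x 1) (x 2) (x 3) (x 4) (x 5) : ℤ) :=
    fun i0 i1 i2 i3 i4 i5 hg => psum (fun a b c d e f => (F4 a b c d e f : ℤ))
      ![i0, i1, i2, i3, i4, i5] hg
  have f2 : ∀ i0 i1 i2 i3 i4 i5 : Fin 6, Function.Bijective ![i0, i1, i2, i3, i4, i5] →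
      ∑ x : Fin 6 → V, (F2 (x i0) (x i1) (x i2) (x i3) (x i4) (x i5) : ℤ)
      = ∑ x : Fin 6 → V, (F2 (x 0) (x 1) (x 2) (x 3) (x 4) (x 5) : ℤ) :=
    fun i0 i1 i2 i3 i4 i5 hg => psum (fun a b c d e f => (F2 a b c d e f : ℤ))
      ![i0, i1, i2, i3, i4, i5] hg
  have f0 : ∀ i0 i1 i2 i3 i4 i5 : Fin 6, Function.Bijective ![i0, i1, i2, i3, i4, i5] →
      ∑ x : Fin 6 → V, (h (x i0) (x i1) (x i2) : ℤ)
      = (Fintype.card V : ℤ) ^ 3 * ∑ a, ∑ b, ∑ c, (h a b c : ℤ) :=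
    fun i0 i1 i2 i3 i4 i5 hg => (psum (fun a b c _ _ _ => (h a b c : ℤ))
      ![i0, i1, i2, i3, i4, i5] hg).trans (sumH h)
  unfold EE
  simp only [Nat.cast_add, Nat.cast_mul, sum_add_distrib, ← mul_sum]
  rw [f0 0 1 2 3 4 5 (by decide),
    f0 0 1 3 2 4 5 (by decide),
    f0 0 1 4 2 3 5 (by decide),
    f0 0 1 5 2 3 4 (by decide),
    f0 0 2 3 1 4 5 (by decide),
    f0 0 2 4 1 3 5 (by decide),
    f0 0 2 5 1 3 4 (by decide),
    f0 0 3 4 1 2 5 (by decide),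
    f0 0 3 5 1 2 4 (by decide),
    f0 0 4 5 1 2 3 (by decide),
    f0 1 2 3 0 4 5 (by decide),
    f0 1 2 4 0 3 5 (by decide),
    f0 1 2 5 0 3 4 (by decide),
    f0 1 3 4 0 2 5 (by decide),
    f0 1 3 5 0 2 4 (by decide),
    f0 1 4 5 0 2 3 (by decide),
    f0 2 3 4 0 1 5 (by decide),
    f0 2 3 5 0 1 4 (by decide),
    f0 2 4 5 0 1 3 (by decide),
    f0 3 4 5 0 1 2 (by decide),
    f4 0 1 2 4 3 5 (by decide),
    f4 0 1 2 5 3 4 (by decide),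
    f4 0 1 3 4 2 5 (by decide),
    f4 0 1 3 5 2 4 (by decide),
    f4 0 1 4 5 2 3 (by decide),
    f4 0 2 3 4 1 5 (by decide),
    f4 0 2 3 5 1 4 (by decide),
    f4 0 2 4 5 1 3 (by decide),
    f4 0 3 4 5 1 2 (by decide),
    f4 1 2 3 4 0 5 (by decide),
    f4 1 2 3 5 0 4 (by decide),
    f4 1 2 4 5 0 3 (by decide),
    f4 1 3 4 5 0 2 (by decide),
    f4 2 3 4 5 0 1 (by decide),
    f2 0 1 2 4 3 5 (by decide),
    f2 0 1 2 5 3 4 (by decide),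
    f2 0 2 1 3 4 5 (by decide),
    f2 0 2 1 4 3 5 (by decide),
    f2 0 2 1 5 3 4 (by decide),
    f2 0 3 1 2 4 5 (by decide),
    f2 0 3 1 4 2 5 (by decide),
    f2 0 3 1 5 2 4 (by decide),
    f2 0 4 1 2 3 5 (by decide),
    f2 0 4 1 3 2 5 (by decide),
    f2 0 4 1 5 2 3 (by decide),
    f2 0 5 1 2 3 4 (by decide),
    f2 0 5 1 3 2 4 (by decide),
    f2 0 5 1 4 2 3 (by decide),
    f2 1 2 0 3 4 5 (by decide),
    f2 1 2 0 4 3 5 (by decide),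
    f2 1 2 0 5 3 4 (by decide),
    f2 1 3 0 2 4 5 (by decide),
    f2 1 3 0 4 2 5 (by decide),
    f2 1 3 0 5 2 4 (by decide),
    f2 1 4 0 2 3 5 (by decide),
    f2 1 4 0 3 2 5 (by decide),
    f2 1 4 0 5 2 3 (by decide),
    f2 1 5 0 2 3 4 (by decide),
    f2 1 5 0 3 2 4 (by decide),
    f2 1 5 0 4 2 3 (by decide),
    f2 2 3 0 1 4 5 (by decide),
    f2 2 3 0 4 1 5 (by decide),
    f2 2 3 0 5 1 4 (by decide),
    f2 2 4 0 1 3 5 (by decide),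
    f2 2 4 0 3 1 5 (by decide),
    f2 2 4 0 5 1 3 (by decide),
    f2 2 5 0 1 3 4 (by decide),
    f2 2 5 0 3 1 4 (by decide),
    f2 2 5 0 4 1 3 (by decide),
    f2 3 4 0 1 2 5 (by decide),
    f2 3 4 0 2 1 5 (by decide),
    f2 3 4 0 5 1 2 (by decide),
    f2 3 5 0 1 2 4 (by decide),
    f2 3 5 0 2 1 4 (by decide),
    f2 3 5 0 4 1 2 (by decide),
    f2 4 5 0 1 2 3 (by decide),
    f2 4 5 0 2 1 3 (by decide),
    f2 4 5 0 3 1 2 (by decide)]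
  ring

end

end Pool.Agent.Helper10.Bt
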