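import Pool.Agent.Helper10.Bt.Red
import Pool.Agent.Helper10.Bt.Sum
import Pool.Agent.Helper10.Sw.Fin

/-! The averaged inequality with exceptional quadruples. -/

set_option autoImplicit false
set_option linter.unusedSectionVars false
set_option linter.unusedVariables false
set_option maxRecDepth 100000
open Finset

namespace Pool.Agent.Helper10.Bt
open Pool.Agent.Helper10.Sw (okc Psd)

section
variable {V : Type}

theorem EE_mono {F4 F2 G4 G2 : V → V → V → V → V → V → ℕ} {h g : V → V → V → ℕ} (K : ℕ)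
    (a4 : ∀ a b c d e f, F4 a b c d e f ≤ G4 a b c d e f)
    (a2 : ∀ a b c d e f, F2 a b c d e f ≤ G2 a b c d e f)
    (ah : ∀ a b c, h a b c ≤ g a b c) (x0 x1 x2 x3 x4 x5 : V) :
    EE F4 F2 h K x0 x1 x2 x3 x4 x5 ≤ EE G4 G2 g K x0 x1 x2 x3 x4 x5 := by
  exact Nat.add_le_add (Nat.mul_le_mul_left _ (Nat.add_le_add (ah _ _ _)
    (Nat.add_le_add (ah _ _ _)
    (Nat.add_le_add (ah _ _ _)
    (Nat.add_le_add (ah _ _ _)
    (Nat.add_le_add (ah _ _ _)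
    (Nat.add_le_add (ah _ _ _)
    (Nat.add_le_add (ah _ _ _)
    (Nat.add_le_add (ah _ _ _)
    (Nat.add_le_add (ah _ _ _)
    (Nat.add_le_add (ah _ _ _)
    (Nat.add_le_add (ah _ _ _)
    (Nat.add_le_add (ah _ _ _)
    (Nat.add_le_add (ah _ _ _)
    (Nat.add_le_add (ah _ _ _)
    (Nat.add_le_add (ah _ _ _)
    (Nat.add_le_add (ah _ _ _)
    (Nat.add_le_add (ah _ _ _)
    (Nat.add_le_add (ah _ _ _)
    (Nat.add_le_add (ah _ _ _)
    (ah _ _ _)))))))))))))))))))))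
    (Nat.add_le_add (a4 _ _ _ _ _ _)
    (Nat.add_le_add (a4 _ _ _ _ _ _)
    (Nat.add_le_add (a4 _ _ _ _ _ _)
    (Nat.add_le_add (a4 _ _ _ _ _ _)
    (Nat.add_le_add (a4 _ _ _ _ _ _)
    (Nat.add_le_add (a4 _ _ _ _ _ _)
    (Nat.add_le_add (a4 _ _ _ _ _ _)
    (Nat.add_le_add (a4 _ _ _ _ _ _)
    (Nat.add_le_add (a4 _ _ _ _ _ _)
    (Nat.add_le_add (a4 _ _ _ _ _ _)
    (Nat.add_le_add (a4 _ _ _ _ _ _)
    (Nat.add_le_add (a4 _ _ _ _ _ _)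
    (Nat.add_le_add (a4 _ _ _ _ _ _)
    (Nat.add_le_add (a4 _ _ _ _ _ _)
    (Nat.add_le_add (a4 _ _ _ _ _ _)
    (Nat.add_le_add (a2 _ _ _ _ _ _)
    (Nat.add_le_add (a2 _ _ _ _ _ _)
    (Nat.add_le_add (a2 _ _ _ _ _ _)
    (Nat.add_le_add (a2 _ _ _ _ _ _)
    (Nat.add_le_add (a2 _ _ _ _ _ _)
    (Nat.add_le_add (a2 _ _ _ _ _ _)
    (Nat.add_le_add (a2 _ _ _ _ _ _)
    (Nat.add_le_add (a2 _ _ _ _ _ _)
    (Nat.add_le_add (a2 _ _ _ _ _ _)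
    (Nat.add_le_add (a2 _ _ _ _ _ _)
    (Nat.add_le_add (a2 _ _ _ _ _ _)
    (Nat.add_le_add (a2 _ _ _ _ _ _)
    (Nat.add_le_add (a2 _ _ _ _ _ _)
    (Nat.add_le_add (a2 _ _ _ _ _ _)
    (Nat.add_le_add (a2 _ _ _ _ _ _)
    (Nat.add_le_add (a2 _ _ _ _ _ _)
    (Nat.add_le_add (a2 _ _ _ _ _ _)
    (Nat.add_le_add (a2 _ _ _ _ _ _)
    (Nat.add_le_add (a2 _ _ _ _ _ _)
    (Nat.add_le_add (a2 _ _ _ _ _ _)
    (Nat.add_le_add (a2 _ _ _ _ _ _)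
    (Nat.add_le_add (a2 _ _ _ _ _ _)
    (Nat.add_le_add (a2 _ _ _ _ _ _)
    (Nat.add_le_add (a2 _ _ _ _ _ _)
    (Nat.add_le_add (a2 _ _ _ _ _ _)
    (Nat.add_le_add (a2 _ _ _ _ _ _)
    (Nat.add_le_add (a2 _ _ _ _ _ _)
    (Nat.add_le_add (a2 _ _ _ _ _ _)
    (Nat.add_le_add (a2 _ _ _ _ _ _)
    (Nat.add_le_add (a2 _ _ _ _ _ _)
    (Nat.add_le_add (a2 _ _ _ _ _ _)
    (Nat.add_le_add (a2 _ _ _ _ _ _)
    (Nat.add_le_add (a2 _ _ _ _ _ _)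
    (Nat.add_le_add (a2 _ _ _ _ _ _)
    (Nat.add_le_add (a2 _ _ _ _ _ _)
    (Nat.add_le_add (a2 _ _ _ _ _ _)
    (Nat.add_le_add (a2 _ _ _ _ _ _)
    (Nat.add_le_add (a2 _ _ _ _ _ _)
    (Nat.add_le_add (a2 _ _ _ _ _ _)
    (Nat.add_le_add (a2 _ _ _ _ _ _)
    (Nat.add_le_add (a2 _ _ _ _ _ _)
    (Nat.add_le_add (a2 _ _ _ _ _ _)
    (Nat.add_le_add (a2 _ _ _ _ _ _)
    (Nat.add_le_add (a2 _ _ _ _ _ _)
    (a2 _ _ _ _ _ _))))))))))))))))))))))))))))))))))))))))))))))))))))))))))))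

theorem EE_le {t h : V → V → V → ℕ} {q : ℕ → ℕ → ℕ → ℕ} {p : ℕ → ℕ → ℕ} {M : ℕ}
    (hq : ∀ c i j, q c i j ≤ M) (hp : ∀ i j, p i j ≤ M) (h1 : ∀ a b c, h a b c ≤ 1) (K : ℕ)
    (x0 x1 x2 x3 x4 x5 : V) :
    EE (F4v t q) (F2v t p) h K x0 x1 x2 x3 x4 x5 ≤ 20 * K + 60 * M := by
  refine (EE_mono (G4 := fun _ _ _ _ _ _ => M) (G2 := fun _ _ _ _ _ _ => M) (g := fun _ _ _ => 1) K
    (fun _ _ _ _ _ _ => hq _ _ _) (fun _ _ _ _ _ _ => hp _ _) h1 x0 x1 x2 x3 x4 x5).trans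
    (le_of_eq ?_)
  unfold EE
  ring

variable [Fintype V] [DecidableEq V]

/-- the sextuples which are not admissible -/
noncomputable def bad (E : Finset (Finset V)) : Finset (Fin 6 → V) :=
  univ.filter fun x : Fin 6 → V => ¬ (Function.Injective x ∧
    ∀ i j k l : Fin 6, i < j → j < k → k < l → ({x i, x j, x k, x l} : Finset V) ∉ E)

theorem flag_bt {t h : V → V → V → ℕ} {OK K B O4 O2 M Z : ℕ}
    {q : ℕ → ℕ → ℕ → ℕ} {p : ℕ → ℕ → ℕ}
    (ht : ∀ a b c, t a b c < 4)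
    (pr : ∀ a b c, P4 (t a b c) (t a c b) (t b c a) (h a b c))
    (E : Finset (Finset V))
    (hok : ∀ a b c d : V, a ≠ b → a ≠ c → a ≠ d → b ≠ c → b ≠ d → c ≠ d →
      ({a, b, c, d} : Finset V) ∉ E →
      okc OK (c4 (t a b c) (t a b d) (t a c d) (t b c d)) = true)
    (hq : ∀ c < 256, Psd 4096 O4 (q c)) (hp : Psd 256 O2 p)
    (hM : ∀ c i j, q c i j ≤ M) (hM2 : ∀ i j, p i j ≤ M)
    (hchk : ∀ c v, okc OK c = true → v < 4 → ∃ T', okc T' c = true ∧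
      chkAll OK K B q p T' v = true)
    (hbad : (bad E).card ≤ Z) :
    20 * K * ((Fintype.card V : ℤ) ^ 3 * ∑ a, ∑ b, ∑ c, (h a b c : ℤ))
      + (15 * O4 + 45 * O2) * (Fintype.card V : ℤ) ^ 6 ≤ B * (Fintype.card V : ℤ) ^ 6
      + (20 * K + 60 * M) * Z := by
  classical
  have hh : ∀ a b c, h a b c ≤ 1 := fun a b c => by
    rcases pr a b c with ⟨-, -, -, h⟩ | ⟨-, -, -, h⟩ | ⟨-, -, -, h⟩ | ⟨-, -, -, h⟩ <;> omega
  have b : ∀ x : Fin 6 → V, EE (F4v t q) (F2v t p) h K (x 0) (x 1) (x 2) (x 3) (x 4) (x 5) ≤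
      B + (20 * K + 60 * M) * (if x ∈ bad E then 1 else 0) := by
    intro x
    by_cases hx : x ∈ bad E
    · rw [if_pos hx]
      have := EE_le (t := t) hM hM2 hh K (x 0) (x 1) (x 2) (x 3) (x 4) (x 5)
      omega
    · rw [if_neg hx, Nat.mul_zero, Nat.add_zero]
      have hx' : Function.Injective x ∧ ∀ i j k l : Fin 6, i < j → j < k → k < l →
          ({x i, x j, x k, x l} : Finset V) ∉ E := by
        by_contra hn
        exact hx (mem_filter.mpr ⟨mem_univ _, hn⟩)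
      have A : Adm t h OK x := ⟨fun i j k => pr _ _ _, fun i j k l h1 h2 h3 => by
        have n1 : x i ≠ x j := fun e => (ne_of_lt h1) (hx'.1 e)
        have n2 : x i ≠ x k := fun e => (ne_of_lt (h1.trans h2)) (hx'.1 e)
        have n3 : x i ≠ x l := fun e => (ne_of_lt ((h1.trans h2).trans h3)) (hx'.1 e)
        have n4 : x j ≠ x k := fun e => (ne_of_lt h2) (hx'.1 e)
        have n5 : x j ≠ x l := fun e => (ne_of_lt (h2.trans h3)) (hx'.1 e)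
        have n6 : x k ≠ x l := fun e => (ne_of_lt h3) (hx'.1 e)
        exact hok _ _ _ _ n1 n2 n3 n4 n5 n6 (hx'.2 i j k l h1 h2 h3)⟩
      exact bound_of A hchk
  have a4 := low4 t q ht O4 hq
  have a2 := low2 t p ht O2 hp
  have a := sumEE h (F4v t q) (F2v t p) K
  have b' : ∑ x : Fin 6 → V, (EE (F4v t q) (F2v t p) h K (x 0) (x 1) (x 2) (x 3) (x 4) (x 5) : ℤ)
      ≤ ∑ x : Fin 6 → V, ((B : ℤ) + (20 * K + 60 * M) * (if x ∈ bad E then 1 else 0 : ℕ)) :=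
    sum_le_sum fun x _ => by exact_mod_cast b x
  have c : ∑ x : Fin 6 → V, ((B : ℤ) + (20 * K + 60 * M) * (if x ∈ bad E then 1 else 0 : ℕ)) =
      B * (Fintype.card V : ℤ) ^ 6 + (20 * K + 60 * M) * (bad E).card := by
    rw [sum_add_distrib, ← mul_sum, sum_const, card_univ, nsmul_eq_mul, Fintype.card_fun,
      Fintype.card_fin]
    have : ∑ x : Fin 6 → V, (((if x ∈ bad E then 1 else 0 : ℕ)) : ℤ) = ((bad E).card : ℤ) := by
      have e : ∑ x : Fin 6 → V, (if x ∈ bad E then 1 else 0 : ℕ) = (bad E).card := by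
        rw [← Finset.card_filter]
        congr 1
        ext x
        simp
      exact_mod_cast e
    rw [this]
    push_cast
    ring
  rw [c, a] at b'
  have d : (20 * (K : ℤ) + 60 * M) * (bad E).card ≤ (20 * K + 60 * M) * Z := by
    have h1 : (0 : ℤ) ≤ 20 * (K : ℤ) + 60 * M := by positivity
    exact mul_le_mul_of_nonneg_left (by exact_mod_cast hbad) h1
  linarith

end

/-- the final count: `H` the non-collinear triples -/
theorem top_bt {n : ℕ} (H : Finset (Finset (Fin n))) (h3 : ∀ e ∈ H, e.card = 3)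
    (h : Fin n → Fin n → Fin n → ℕ) (hH : ∀ a b c, ({a, b, c} : Finset (Fin n)) ∈ H → h a b c = 1)
    (K O4 O2 M C e : ℕ) (hK : 0 < K) (hC : (180 * K + 60 * M) * 331776 ≤ 20 * (C * K))
    (hf : 20 * ((9 * K : ℕ) : ℤ) * ((Fintype.card (Fin n) : ℤ) ^ 3 * ∑ a, ∑ b, ∑ c, (h a b c : ℤ))
      + (15 * O4 + 45 * O2) * (Fintype.card (Fin n) : ℤ) ^ 6 ≤
      ((15 * O4 + 45 * O2 + 100 * K : ℕ) : ℤ) * (Fintype.card (Fin n) : ℤ) ^ 6
      + (20 * ((9 * K : ℕ) : ℤ) + 60 * M) *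
        (36 * Fintype.card (Fin n) ^ 5 + 1296 * (256 * (Fintype.card (Fin n) ^ 2 * e)) : ℕ)) :
    54 * (n * H.card) ≤ 5 * n ^ 4 + C * (n ^ 3 + e) := by
  rw [Fintype.card_fin] at hf
  push_cast at hf
  have h6 : ((6 * H.card : ℕ) : ℤ) ≤ ∑ a, ∑ b, ∑ c, (h a b c : ℤ) := by
    have := Pool.Agent.Helper10.Sw.six_le H h3
    have h' : (6 * H.card : ℕ) ≤ ∑ a, ∑ b, ∑ c, Pool.Agent.Helper10.Sw.hd H a b c := this
    have h'' : ∑ a, ∑ b, ∑ c, Pool.Agent.Helper10.Sw.hd H a b c ≤ ∑ a, ∑ b, ∑ c, h a b c := by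
      refine sum_le_sum fun a _ => sum_le_sum fun b _ => sum_le_sum fun c _ => ?_
      have hl := Pool.Agent.Helper10.Sw.hd_lt (H := H) a b c
      rcases Nat.eq_zero_or_pos (Pool.Agent.Helper10.Sw.hd H a b c) with h0 | h0
      · rw [h0]; exact Nat.zero_le _
      · have h1 : Pool.Agent.Helper10.Sw.hd H a b c = 1 := by omega
        rw [h1, hH a b c (Pool.Agent.Helper10.Sw.hd_one h1).2.2.2]
    exact_mod_cast h'.trans h''
  push_cast at h6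
  rcases Nat.eq_zero_or_pos n with h0 | hn
  · subst h0
    simp
  · have hn' : (0 : ℤ) < (n : ℤ) := by exact_mod_cast hn
    have hK' : (0 : ℤ) < (K : ℤ) := by exact_mod_cast hK
    have hC' : (180 * (K : ℤ) + 60 * M) * 331776 ≤ 20 * (C * K) := by exact_mod_cast hC
    have hp : (0 : ℤ) < (n : ℤ) ^ 2 := by positivity
    have he : (0 : ℤ) ≤ (e : ℤ) := by positivity
    have hn3 : (0 : ℤ) ≤ (n : ℤ) ^ 3 := by positivity
    have k1 : (n : ℤ) ^ 2 * (1080 * K * (n * H.card)) ≤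
        (n : ℤ) ^ 2 * (100 * K * (n : ℤ) ^ 4 + (180 * K + 60 * M) * (36 * n ^ 3 + 331776 * e)) := by
      have := mul_le_mul_of_nonneg_left h6 (by positivity : (0 : ℤ) ≤ 180 * (K : ℤ) * (n : ℤ) ^ 3)
      nlinarith
    have k2 := le_of_mul_le_mul_left k1 hp
    have k3 : (180 * (K : ℤ) + 60 * M) * (36 * (n : ℤ) ^ 3 + 331776 * e) ≤
        20 * (C * K) * ((n : ℤ) ^ 3 + e) := by
      have s1 := mul_le_mul_of_nonneg_right hC' (by positivity : (0 : ℤ) ≤ (n : ℤ) ^ 3 + e)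
      have s2 : (180 * (K : ℤ) + 60 * M) * (36 * (n : ℤ) ^ 3 + 331776 * e) ≤
          (180 * (K : ℤ) + 60 * M) * (331776 * ((n : ℤ) ^ 3 + e)) :=
        mul_le_mul_of_nonneg_left (by nlinarith) (by positivity)
      nlinarith
    have k4 : (20 * (K : ℤ)) * (54 * (n * H.card)) ≤
        (20 * K) * (5 * (n : ℤ) ^ 4 + C * ((n : ℤ) ^ 3 + e)) := by nlinarith
    have h := le_of_mul_le_mul_left k4 (by positivity)
    exact_mod_cast h

end Pool.Agent.Helper10.Bt
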