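import Pool.Agent.Helper10.Bt.R
import Pool.Agent.Helper10.Bt.Top
import Pool.Agent.Helper41.BT.Bad
import Pool.Agent.Helper10.Bt.G0
import Pool.Agent.Helper10.Bt.G1
import Pool.Agent.Helper10.Bt.G2
import Pool.Agent.Helper10.Bt.G3

/-! The bound for betweenness structures. -/

set_option autoImplicit false
set_option maxRecDepth 1000000
set_option linter.all false

namespace Pool.Agent.Helper10.Bt
open Pool.Agent.Helper10.Sw

theorem psd_cond {N O : ℕ} {b : Bool} {f g : ℕ → ℕ → ℕ} (hf : Psd N O f) (hg : Psd N O g) :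
    Psd N O (fun i j => cond b (f i j) (g i j)) := by
  cases b
  exacts [hg, hf]

theorem cond_le {b : Bool} {x y M : ℕ} (h1 : x ≤ M) (h2 : y ≤ M) : cond b x y ≤ M := by
  cases b
  exacts [h2, h1]

theorem pn0 (c : ℕ) : Psd 4096 4611686018427387904 (n0 c) := Psd.const 4096 4611686018427387904
theorem ln0 (c i j : ℕ) : n0 c i j ≤ 18446744073709551616 := (by decide : 4611686018427387904 ≤ 18446744073709551616)

theorem pe240 (c : ℕ) : Psd 4096 4611686018427387904 (e240 c) := by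
  have e : e240 c = lk y1_240 33 t1 := by funext i j; exact lk2_eq _ _ _ _ _
  rw [e]
  exact p1 _ fy1_240

theorem le240 (c i j : ℕ) : e240 c i j ≤ 18446744073709551616 := by
  have e : e240 c i j = lk y1_240 33 t1 i j := lk2_eq _ _ _ _ _
  rw [e]
  exact lk_le _ _ _ _ _

theorem pn1_240 (c : ℕ) : Psd 4096 4611686018427387904 (n1_240 c) :=
  psd_cond (b := okc c 0) (f := n0 c) (g := e240 c) (pn0 c) (pe240 c)

theorem ln1_240 (c i j : ℕ) : n1_240 c i j ≤ 18446744073709551616 := cond_le (ln0 c i j) (le240 c i j)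

theorem pn2_240 (c : ℕ) : Psd 4096 4611686018427387904 (n2_240 c) :=
  psd_cond (b := okc c 1) (f := n0 c) (g := n1_240 c) (pn0 c) (pn1_240 c)

theorem ln2_240 (c i j : ℕ) : n2_240 c i j ≤ 18446744073709551616 := cond_le (ln0 c i j) (ln1_240 c i j)

theorem pn3_240 (c : ℕ) : Psd 4096 4611686018427387904 (n3_240 c) :=
  psd_cond (b := okc c 2) (f := n0 c) (g := n2_240 c) (pn0 c) (pn2_240 c)

theorem ln3_240 (c i j : ℕ) : n3_240 c i j ≤ 18446744073709551616 := cond_le (ln0 c i j) (ln2_240 c i j)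

theorem pn4_240 (c : ℕ) : Psd 4096 4611686018427387904 (n4_240 c) :=
  psd_cond (b := okc c 3) (f := n0 c) (g := n3_240 c) (pn0 c) (pn3_240 c)

theorem ln4_240 (c i j : ℕ) : n4_240 c i j ≤ 18446744073709551616 := cond_le (ln0 c i j) (ln3_240 c i j)

theorem pe224 (c : ℕ) : Psd 4096 4611686018427387904 (e224 c) := by
  have e : e224 c = lk y2_224 37 t2 := by funext i j; exact lk2_eq _ _ _ _ _
  rw [e]
  exact p2 _ fy2_224

theorem le224 (c i j : ℕ) : e224 c i j ≤ 18446744073709551616 := by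
  have e : e224 c i j = lk y2_224 37 t2 i j := lk2_eq _ _ _ _ _
  rw [e]
  exact lk_le _ _ _ _ _

theorem pn1_224 (c : ℕ) : Psd 4096 4611686018427387904 (n1_224 c) :=
  psd_cond (b := okc c 0) (f := n0 c) (g := e224 c) (pn0 c) (pe224 c)

theorem ln1_224 (c i j : ℕ) : n1_224 c i j ≤ 18446744073709551616 := cond_le (ln0 c i j) (le224 c i j)

theorem pn2_224 (c : ℕ) : Psd 4096 4611686018427387904 (n2_224 c) :=
  psd_cond (b := okc c 1) (f := n0 c) (g := n1_224 c) (pn0 c) (pn1_224 c)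

theorem ln2_224 (c i j : ℕ) : n2_224 c i j ≤ 18446744073709551616 := cond_le (ln0 c i j) (ln1_224 c i j)

theorem pn3_224 (c : ℕ) : Psd 4096 4611686018427387904 (n3_224 c) :=
  psd_cond (b := okc c 2) (f := n0 c) (g := n2_224 c) (pn0 c) (pn2_224 c)

theorem ln3_224 (c i j : ℕ) : n3_224 c i j ≤ 18446744073709551616 := cond_le (ln0 c i j) (ln2_224 c i j)

theorem pn4_224 (c : ℕ) : Psd 4096 4611686018427387904 (n4_224 c) :=
  psd_cond (b := okc c 3) (f := n0 c) (g := n3_224 c) (pn0 c) (pn3_224 c)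

theorem ln4_224 (c i j : ℕ) : n4_224 c i j ≤ 18446744073709551616 := cond_le (ln0 c i j) (ln3_224 c i j)

theorem pn5_224 (c : ℕ) : Psd 4096 4611686018427387904 (n5_224 c) :=
  psd_cond (b := okc c 4) (f := n4_240 c) (g := n4_224 c) (pn4_240 c) (pn4_224 c)

theorem ln5_224 (c i j : ℕ) : n5_224 c i j ≤ 18446744073709551616 := cond_le (ln4_240 c i j) (ln4_224 c i j)

theorem pe204 (c : ℕ) : Psd 4096 4611686018427387904 (e204 c) := by
  have e : e204 c = lk y1_204 33 t1 := by funext i j; exact lk2_eq _ _ _ _ _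
  rw [e]
  exact p1 _ fy1_204

theorem le204 (c i j : ℕ) : e204 c i j ≤ 18446744073709551616 := by
  have e : e204 c i j = lk y1_204 33 t1 i j := lk2_eq _ _ _ _ _
  rw [e]
  exact lk_le _ _ _ _ _

theorem pn1_204 (c : ℕ) : Psd 4096 4611686018427387904 (n1_204 c) :=
  psd_cond (b := okc c 0) (f := n0 c) (g := e204 c) (pn0 c) (pe204 c)

theorem ln1_204 (c i j : ℕ) : n1_204 c i j ≤ 18446744073709551616 := cond_le (ln0 c i j) (le204 c i j)

theorem pn2_204 (c : ℕ) : Psd 4096 4611686018427387904 (n2_204 c) :=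
  psd_cond (b := okc c 1) (f := n0 c) (g := n1_204 c) (pn0 c) (pn1_204 c)

theorem ln2_204 (c i j : ℕ) : n2_204 c i j ≤ 18446744073709551616 := cond_le (ln0 c i j) (ln1_204 c i j)

theorem pe200 (c : ℕ) : Psd 4096 4611686018427387904 (e200 c) := by
  have e : e200 c = lk y2_200 37 t2 := by funext i j; exact lk2_eq _ _ _ _ _
  rw [e]
  exact p2 _ fy2_200

theorem le200 (c i j : ℕ) : e200 c i j ≤ 18446744073709551616 := by
  have e : e200 c i j = lk y2_200 37 t2 i j := lk2_eq _ _ _ _ _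
  rw [e]
  exact lk_le _ _ _ _ _

theorem pn1_200 (c : ℕ) : Psd 4096 4611686018427387904 (n1_200 c) :=
  psd_cond (b := okc c 0) (f := n0 c) (g := e200 c) (pn0 c) (pe200 c)

theorem ln1_200 (c i j : ℕ) : n1_200 c i j ≤ 18446744073709551616 := cond_le (ln0 c i j) (le200 c i j)

theorem pn2_200 (c : ℕ) : Psd 4096 4611686018427387904 (n2_200 c) :=
  psd_cond (b := okc c 1) (f := n0 c) (g := n1_200 c) (pn0 c) (pn1_200 c)

theorem ln2_200 (c i j : ℕ) : n2_200 c i j ≤ 18446744073709551616 := cond_le (ln0 c i j) (ln1_200 c i j)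

theorem pn3_200 (c : ℕ) : Psd 4096 4611686018427387904 (n3_200 c) :=
  psd_cond (b := okc c 2) (f := n2_204 c) (g := n2_200 c) (pn2_204 c) (pn2_200 c)

theorem ln3_200 (c i j : ℕ) : n3_200 c i j ≤ 18446744073709551616 := cond_le (ln2_204 c i j) (ln2_200 c i j)

theorem pe192 (c : ℕ) : Psd 4096 4611686018427387904 (e192 c) := by
  have e : e192 c = lk y0_192 58 t0 := by funext i j; exact lk2_eq _ _ _ _ _
  rw [e]
  exact p0 _ fy0_192

theorem le192 (c i j : ℕ) : e192 c i j ≤ 18446744073709551616 := by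
  have e : e192 c i j = lk y0_192 58 t0 i j := lk2_eq _ _ _ _ _
  rw [e]
  exact lk_le _ _ _ _ _

theorem pn1_192 (c : ℕ) : Psd 4096 4611686018427387904 (n1_192 c) :=
  psd_cond (b := okc c 0) (f := n0 c) (g := e192 c) (pn0 c) (pe192 c)

theorem ln1_192 (c i j : ℕ) : n1_192 c i j ≤ 18446744073709551616 := cond_le (ln0 c i j) (le192 c i j)

theorem pn2_192 (c : ℕ) : Psd 4096 4611686018427387904 (n2_192 c) :=
  psd_cond (b := okc c 1) (f := n0 c) (g := n1_192 c) (pn0 c) (pn1_192 c)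

theorem ln2_192 (c i j : ℕ) : n2_192 c i j ≤ 18446744073709551616 := cond_le (ln0 c i j) (ln1_192 c i j)

theorem pn3_192 (c : ℕ) : Psd 4096 4611686018427387904 (n3_192 c) :=
  psd_cond (b := okc c 2) (f := n0 c) (g := n2_192 c) (pn0 c) (pn2_192 c)

theorem ln3_192 (c i j : ℕ) : n3_192 c i j ≤ 18446744073709551616 := cond_le (ln0 c i j) (ln2_192 c i j)

theorem pn4_192 (c : ℕ) : Psd 4096 4611686018427387904 (n4_192 c) :=
  psd_cond (b := okc c 3) (f := n3_200 c) (g := n3_192 c) (pn3_200 c) (pn3_192 c)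

theorem ln4_192 (c i j : ℕ) : n4_192 c i j ≤ 18446744073709551616 := cond_le (ln3_200 c i j) (ln3_192 c i j)

theorem pn5_192 (c : ℕ) : Psd 4096 4611686018427387904 (n5_192 c) :=
  psd_cond (b := okc c 4) (f := n0 c) (g := n4_192 c) (pn0 c) (pn4_192 c)

theorem ln5_192 (c i j : ℕ) : n5_192 c i j ≤ 18446744073709551616 := cond_le (ln0 c i j) (ln4_192 c i j)

theorem pn6_192 (c : ℕ) : Psd 4096 4611686018427387904 (n6_192 c) :=
  psd_cond (b := okc c 5) (f := n5_224 c) (g := n5_192 c) (pn5_224 c) (pn5_192 c)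

theorem ln6_192 (c i j : ℕ) : n6_192 c i j ≤ 18446744073709551616 := cond_le (ln5_224 c i j) (ln5_192 c i j)

theorem pe176 (c : ℕ) : Psd 4096 4611686018427387904 (e176 c) := by
  have e : e176 c = lk y2_176 37 t2 := by funext i j; exact lk2_eq _ _ _ _ _
  rw [e]
  exact p2 _ fy2_176

theorem le176 (c i j : ℕ) : e176 c i j ≤ 18446744073709551616 := by
  have e : e176 c i j = lk y2_176 37 t2 i j := lk2_eq _ _ _ _ _
  rw [e]
  exact lk_le _ _ _ _ _

theorem pn1_176 (c : ℕ) : Psd 4096 4611686018427387904 (n1_176 c) :=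
  psd_cond (b := okc c 0) (f := n0 c) (g := e176 c) (pn0 c) (pe176 c)

theorem ln1_176 (c i j : ℕ) : n1_176 c i j ≤ 18446744073709551616 := cond_le (ln0 c i j) (le176 c i j)

theorem pn2_176 (c : ℕ) : Psd 4096 4611686018427387904 (n2_176 c) :=
  psd_cond (b := okc c 1) (f := n0 c) (g := n1_176 c) (pn0 c) (pn1_176 c)

theorem ln2_176 (c i j : ℕ) : n2_176 c i j ≤ 18446744073709551616 := cond_le (ln0 c i j) (ln1_176 c i j)

theorem pn3_176 (c : ℕ) : Psd 4096 4611686018427387904 (n3_176 c) :=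
  psd_cond (b := okc c 2) (f := n0 c) (g := n2_176 c) (pn0 c) (pn2_176 c)

theorem ln3_176 (c i j : ℕ) : n3_176 c i j ≤ 18446744073709551616 := cond_le (ln0 c i j) (ln2_176 c i j)

theorem pn4_176 (c : ℕ) : Psd 4096 4611686018427387904 (n4_176 c) :=
  psd_cond (b := okc c 3) (f := n0 c) (g := n3_176 c) (pn0 c) (pn3_176 c)

theorem ln4_176 (c i j : ℕ) : n4_176 c i j ≤ 18446744073709551616 := cond_le (ln0 c i j) (ln3_176 c i j)

theorem pe160 (c : ℕ) : Psd 4096 4611686018427387904 (e160 c) := by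
  have e : e160 c = lk y1_160 33 t1 := by funext i j; exact lk2_eq _ _ _ _ _
  rw [e]
  exact p1 _ fy1_160

theorem le160 (c i j : ℕ) : e160 c i j ≤ 18446744073709551616 := by
  have e : e160 c i j = lk y1_160 33 t1 i j := lk2_eq _ _ _ _ _
  rw [e]
  exact lk_le _ _ _ _ _

theorem pn1_160 (c : ℕ) : Psd 4096 4611686018427387904 (n1_160 c) :=
  psd_cond (b := okc c 0) (f := n0 c) (g := e160 c) (pn0 c) (pe160 c)

theorem ln1_160 (c i j : ℕ) : n1_160 c i j ≤ 18446744073709551616 := cond_le (ln0 c i j) (le160 c i j)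

theorem pn2_160 (c : ℕ) : Psd 4096 4611686018427387904 (n2_160 c) :=
  psd_cond (b := okc c 1) (f := n0 c) (g := n1_160 c) (pn0 c) (pn1_160 c)

theorem ln2_160 (c i j : ℕ) : n2_160 c i j ≤ 18446744073709551616 := cond_le (ln0 c i j) (ln1_160 c i j)

theorem pn3_160 (c : ℕ) : Psd 4096 4611686018427387904 (n3_160 c) :=
  psd_cond (b := okc c 2) (f := n0 c) (g := n2_160 c) (pn0 c) (pn2_160 c)

theorem ln3_160 (c i j : ℕ) : n3_160 c i j ≤ 18446744073709551616 := cond_le (ln0 c i j) (ln2_160 c i j)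

theorem pn4_160 (c : ℕ) : Psd 4096 4611686018427387904 (n4_160 c) :=
  psd_cond (b := okc c 3) (f := n0 c) (g := n3_160 c) (pn0 c) (pn3_160 c)

theorem ln4_160 (c i j : ℕ) : n4_160 c i j ≤ 18446744073709551616 := cond_le (ln0 c i j) (ln3_160 c i j)

theorem pn5_160 (c : ℕ) : Psd 4096 4611686018427387904 (n5_160 c) :=
  psd_cond (b := okc c 4) (f := n4_176 c) (g := n4_160 c) (pn4_176 c) (pn4_160 c)

theorem ln5_160 (c i j : ℕ) : n5_160 c i j ≤ 18446744073709551616 := cond_le (ln4_176 c i j) (ln4_160 c i j)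

theorem pe131 (c : ℕ) : Psd 4096 4611686018427387904 (e131 c) := by
  have e : e131 c = lk y1_131 33 t1 := by funext i j; exact lk2_eq _ _ _ _ _
  rw [e]
  exact p1 _ fy1_131

theorem le131 (c i j : ℕ) : e131 c i j ≤ 18446744073709551616 := by
  have e : e131 c i j = lk y1_131 33 t1 i j := lk2_eq _ _ _ _ _
  rw [e]
  exact lk_le _ _ _ _ _

theorem pe130 (c : ℕ) : Psd 4096 4611686018427387904 (e130 c) := by
  have e : e130 c = lk y2_130 37 t2 := by funext i j; exact lk2_eq _ _ _ _ _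
  rw [e]
  exact p2 _ fy2_130

theorem le130 (c i j : ℕ) : e130 c i j ≤ 18446744073709551616 := by
  have e : e130 c i j = lk y2_130 37 t2 i j := lk2_eq _ _ _ _ _
  rw [e]
  exact lk_le _ _ _ _ _

theorem pn1_130 (c : ℕ) : Psd 4096 4611686018427387904 (n1_130 c) :=
  psd_cond (b := okc c 0) (f := e131 c) (g := e130 c) (pe131 c) (pe130 c)

theorem ln1_130 (c i j : ℕ) : n1_130 c i j ≤ 18446744073709551616 := cond_le (le131 c i j) (le130 c i j)

theorem pe128 (c : ℕ) : Psd 4096 4611686018427387904 (e128 c) := by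
  have e : e128 c = lk y0_128 58 t0 := by funext i j; exact lk2_eq _ _ _ _ _
  rw [e]
  exact p0 _ fy0_128

theorem le128 (c i j : ℕ) : e128 c i j ≤ 18446744073709551616 := by
  have e : e128 c i j = lk y0_128 58 t0 i j := lk2_eq _ _ _ _ _
  rw [e]
  exact lk_le _ _ _ _ _

theorem pn1_128 (c : ℕ) : Psd 4096 4611686018427387904 (n1_128 c) :=
  psd_cond (b := okc c 0) (f := n0 c) (g := e128 c) (pn0 c) (pe128 c)

theorem ln1_128 (c i j : ℕ) : n1_128 c i j ≤ 18446744073709551616 := cond_le (ln0 c i j) (le128 c i j)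

theorem pn2_128 (c : ℕ) : Psd 4096 4611686018427387904 (n2_128 c) :=
  psd_cond (b := okc c 1) (f := n1_130 c) (g := n1_128 c) (pn1_130 c) (pn1_128 c)

theorem ln2_128 (c i j : ℕ) : n2_128 c i j ≤ 18446744073709551616 := cond_le (ln1_130 c i j) (ln1_128 c i j)

theorem pn3_128 (c : ℕ) : Psd 4096 4611686018427387904 (n3_128 c) :=
  psd_cond (b := okc c 2) (f := n0 c) (g := n2_128 c) (pn0 c) (pn2_128 c)

theorem ln3_128 (c i j : ℕ) : n3_128 c i j ≤ 18446744073709551616 := cond_le (ln0 c i j) (ln2_128 c i j)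

theorem pn4_128 (c : ℕ) : Psd 4096 4611686018427387904 (n4_128 c) :=
  psd_cond (b := okc c 3) (f := n0 c) (g := n3_128 c) (pn0 c) (pn3_128 c)

theorem ln4_128 (c i j : ℕ) : n4_128 c i j ≤ 18446744073709551616 := cond_le (ln0 c i j) (ln3_128 c i j)

theorem pn5_128 (c : ℕ) : Psd 4096 4611686018427387904 (n5_128 c) :=
  psd_cond (b := okc c 4) (f := n0 c) (g := n4_128 c) (pn0 c) (pn4_128 c)

theorem ln5_128 (c i j : ℕ) : n5_128 c i j ≤ 18446744073709551616 := cond_le (ln0 c i j) (ln4_128 c i j)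

theorem pn6_128 (c : ℕ) : Psd 4096 4611686018427387904 (n6_128 c) :=
  psd_cond (b := okc c 5) (f := n5_160 c) (g := n5_128 c) (pn5_160 c) (pn5_128 c)

theorem ln6_128 (c i j : ℕ) : n6_128 c i j ≤ 18446744073709551616 := cond_le (ln5_160 c i j) (ln5_128 c i j)

theorem pn7_128 (c : ℕ) : Psd 4096 4611686018427387904 (n7_128 c) :=
  psd_cond (b := okc c 6) (f := n6_192 c) (g := n6_128 c) (pn6_192 c) (pn6_128 c)

theorem ln7_128 (c i j : ℕ) : n7_128 c i j ≤ 18446744073709551616 := cond_le (ln6_192 c i j) (ln6_128 c i j)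

theorem pe76 (c : ℕ) : Psd 4096 4611686018427387904 (e76 c) := by
  have e : e76 c = lk y2_76 37 t2 := by funext i j; exact lk2_eq _ _ _ _ _
  rw [e]
  exact p2 _ fy2_76

theorem le76 (c i j : ℕ) : e76 c i j ≤ 18446744073709551616 := by
  have e : e76 c i j = lk y2_76 37 t2 i j := lk2_eq _ _ _ _ _
  rw [e]
  exact lk_le _ _ _ _ _

theorem pn1_76 (c : ℕ) : Psd 4096 4611686018427387904 (n1_76 c) :=
  psd_cond (b := okc c 0) (f := n0 c) (g := e76 c) (pn0 c) (pe76 c)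

theorem ln1_76 (c i j : ℕ) : n1_76 c i j ≤ 18446744073709551616 := cond_le (ln0 c i j) (le76 c i j)

theorem pn2_76 (c : ℕ) : Psd 4096 4611686018427387904 (n2_76 c) :=
  psd_cond (b := okc c 1) (f := n0 c) (g := n1_76 c) (pn0 c) (pn1_76 c)

theorem ln2_76 (c i j : ℕ) : n2_76 c i j ≤ 18446744073709551616 := cond_le (ln0 c i j) (ln1_76 c i j)

theorem pe72 (c : ℕ) : Psd 4096 4611686018427387904 (e72 c) := by
  have e : e72 c = lk y1_72 33 t1 := by funext i j; exact lk2_eq _ _ _ _ _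
  rw [e]
  exact p1 _ fy1_72

theorem le72 (c i j : ℕ) : e72 c i j ≤ 18446744073709551616 := by
  have e : e72 c i j = lk y1_72 33 t1 i j := lk2_eq _ _ _ _ _
  rw [e]
  exact lk_le _ _ _ _ _

theorem pn1_72 (c : ℕ) : Psd 4096 4611686018427387904 (n1_72 c) :=
  psd_cond (b := okc c 0) (f := n0 c) (g := e72 c) (pn0 c) (pe72 c)

theorem ln1_72 (c i j : ℕ) : n1_72 c i j ≤ 18446744073709551616 := cond_le (ln0 c i j) (le72 c i j)

theorem pn2_72 (c : ℕ) : Psd 4096 4611686018427387904 (n2_72 c) :=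
  psd_cond (b := okc c 1) (f := n0 c) (g := n1_72 c) (pn0 c) (pn1_72 c)

theorem ln2_72 (c i j : ℕ) : n2_72 c i j ≤ 18446744073709551616 := cond_le (ln0 c i j) (ln1_72 c i j)

theorem pn3_72 (c : ℕ) : Psd 4096 4611686018427387904 (n3_72 c) :=
  psd_cond (b := okc c 2) (f := n2_76 c) (g := n2_72 c) (pn2_76 c) (pn2_72 c)

theorem ln3_72 (c i j : ℕ) : n3_72 c i j ≤ 18446744073709551616 := cond_le (ln2_76 c i j) (ln2_72 c i j)

theorem pe67 (c : ℕ) : Psd 4096 4611686018427387904 (e67 c) := by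
  have e : e67 c = lk y2_67 37 t2 := by funext i j; exact lk2_eq _ _ _ _ _
  rw [e]
  exact p2 _ fy2_67

theorem le67 (c i j : ℕ) : e67 c i j ≤ 18446744073709551616 := by
  have e : e67 c i j = lk y2_67 37 t2 i j := lk2_eq _ _ _ _ _
  rw [e]
  exact lk_le _ _ _ _ _

theorem pe66 (c : ℕ) : Psd 4096 4611686018427387904 (e66 c) := by
  have e : e66 c = lk y1_66 33 t1 := by funext i j; exact lk2_eq _ _ _ _ _
  rw [e]
  exact p1 _ fy1_66

theorem le66 (c i j : ℕ) : e66 c i j ≤ 18446744073709551616 := by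
  have e : e66 c i j = lk y1_66 33 t1 i j := lk2_eq _ _ _ _ _
  rw [e]
  exact lk_le _ _ _ _ _

theorem pn1_66 (c : ℕ) : Psd 4096 4611686018427387904 (n1_66 c) :=
  psd_cond (b := okc c 0) (f := e67 c) (g := e66 c) (pe67 c) (pe66 c)

theorem ln1_66 (c i j : ℕ) : n1_66 c i j ≤ 18446744073709551616 := cond_le (le67 c i j) (le66 c i j)

theorem pe64 (c : ℕ) : Psd 4096 4611686018427387904 (e64 c) := by
  have e : e64 c = lk y0_64 58 t0 := by funext i j; exact lk2_eq _ _ _ _ _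
  rw [e]
  exact p0 _ fy0_64

theorem le64 (c i j : ℕ) : e64 c i j ≤ 18446744073709551616 := by
  have e : e64 c i j = lk y0_64 58 t0 i j := lk2_eq _ _ _ _ _
  rw [e]
  exact lk_le _ _ _ _ _

theorem pn1_64 (c : ℕ) : Psd 4096 4611686018427387904 (n1_64 c) :=
  psd_cond (b := okc c 0) (f := n0 c) (g := e64 c) (pn0 c) (pe64 c)

theorem ln1_64 (c i j : ℕ) : n1_64 c i j ≤ 18446744073709551616 := cond_le (ln0 c i j) (le64 c i j)

theorem pn2_64 (c : ℕ) : Psd 4096 4611686018427387904 (n2_64 c) :=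
  psd_cond (b := okc c 1) (f := n1_66 c) (g := n1_64 c) (pn1_66 c) (pn1_64 c)

theorem ln2_64 (c i j : ℕ) : n2_64 c i j ≤ 18446744073709551616 := cond_le (ln1_66 c i j) (ln1_64 c i j)

theorem pn3_64 (c : ℕ) : Psd 4096 4611686018427387904 (n3_64 c) :=
  psd_cond (b := okc c 2) (f := n0 c) (g := n2_64 c) (pn0 c) (pn2_64 c)

theorem ln3_64 (c i j : ℕ) : n3_64 c i j ≤ 18446744073709551616 := cond_le (ln0 c i j) (ln2_64 c i j)

theorem pn4_64 (c : ℕ) : Psd 4096 4611686018427387904 (n4_64 c) :=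
  psd_cond (b := okc c 3) (f := n3_72 c) (g := n3_64 c) (pn3_72 c) (pn3_64 c)

theorem ln4_64 (c i j : ℕ) : n4_64 c i j ≤ 18446744073709551616 := cond_le (ln3_72 c i j) (ln3_64 c i j)

theorem pn5_64 (c : ℕ) : Psd 4096 4611686018427387904 (n5_64 c) :=
  psd_cond (b := okc c 4) (f := n0 c) (g := n4_64 c) (pn0 c) (pn4_64 c)

theorem ln5_64 (c i j : ℕ) : n5_64 c i j ≤ 18446744073709551616 := cond_le (ln0 c i j) (ln4_64 c i j)

theorem pn6_64 (c : ℕ) : Psd 4096 4611686018427387904 (n6_64 c) :=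
  psd_cond (b := okc c 5) (f := n0 c) (g := n5_64 c) (pn0 c) (pn5_64 c)

theorem ln6_64 (c i j : ℕ) : n6_64 c i j ≤ 18446744073709551616 := cond_le (ln0 c i j) (ln5_64 c i j)

theorem pe60 (c : ℕ) : Psd 4096 4611686018427387904 (e60 c) := by
  have e : e60 c = lk y1_60 33 t1 := by funext i j; exact lk2_eq _ _ _ _ _
  rw [e]
  exact p1 _ fy1_60

theorem le60 (c i j : ℕ) : e60 c i j ≤ 18446744073709551616 := by
  have e : e60 c i j = lk y1_60 33 t1 i j := lk2_eq _ _ _ _ _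
  rw [e]
  exact lk_le _ _ _ _ _

theorem pn1_60 (c : ℕ) : Psd 4096 4611686018427387904 (n1_60 c) :=
  psd_cond (b := okc c 0) (f := n0 c) (g := e60 c) (pn0 c) (pe60 c)

theorem ln1_60 (c i j : ℕ) : n1_60 c i j ≤ 18446744073709551616 := cond_le (ln0 c i j) (le60 c i j)

theorem pn2_60 (c : ℕ) : Psd 4096 4611686018427387904 (n2_60 c) :=
  psd_cond (b := okc c 1) (f := n0 c) (g := n1_60 c) (pn0 c) (pn1_60 c)

theorem ln2_60 (c i j : ℕ) : n2_60 c i j ≤ 18446744073709551616 := cond_le (ln0 c i j) (ln1_60 c i j)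

theorem pn3_56 (c : ℕ) : Psd 4096 4611686018427387904 (n3_56 c) :=
  psd_cond (b := okc c 2) (f := n2_60 c) (g := n0 c) (pn2_60 c) (pn0 c)

theorem ln3_56 (c i j : ℕ) : n3_56 c i j ≤ 18446744073709551616 := cond_le (ln2_60 c i j) (ln0 c i j)

theorem pe52 (c : ℕ) : Psd 4096 4611686018427387904 (e52 c) := by
  have e : e52 c = lk y2_52 37 t2 := by funext i j; exact lk2_eq _ _ _ _ _
  rw [e]
  exact p2 _ fy2_52

theorem le52 (c i j : ℕ) : e52 c i j ≤ 18446744073709551616 := by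
  have e : e52 c i j = lk y2_52 37 t2 i j := lk2_eq _ _ _ _ _
  rw [e]
  exact lk_le _ _ _ _ _

theorem pn1_52 (c : ℕ) : Psd 4096 4611686018427387904 (n1_52 c) :=
  psd_cond (b := okc c 0) (f := n0 c) (g := e52 c) (pn0 c) (pe52 c)

theorem ln1_52 (c i j : ℕ) : n1_52 c i j ≤ 18446744073709551616 := cond_le (ln0 c i j) (le52 c i j)

theorem pn2_52 (c : ℕ) : Psd 4096 4611686018427387904 (n2_52 c) :=
  psd_cond (b := okc c 1) (f := n0 c) (g := n1_52 c) (pn0 c) (pn1_52 c)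

theorem ln2_52 (c i j : ℕ) : n2_52 c i j ≤ 18446744073709551616 := cond_le (ln0 c i j) (ln1_52 c i j)

theorem pe48 (c : ℕ) : Psd 4096 4611686018427387904 (e48 c) := by
  have e : e48 c = lk y0_48 58 t0 := by funext i j; exact lk2_eq _ _ _ _ _
  rw [e]
  exact p0 _ fy0_48

theorem le48 (c i j : ℕ) : e48 c i j ≤ 18446744073709551616 := by
  have e : e48 c i j = lk y0_48 58 t0 i j := lk2_eq _ _ _ _ _
  rw [e]
  exact lk_le _ _ _ _ _

theorem pn1_48 (c : ℕ) : Psd 4096 4611686018427387904 (n1_48 c) :=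
  psd_cond (b := okc c 0) (f := n0 c) (g := e48 c) (pn0 c) (pe48 c)

theorem ln1_48 (c i j : ℕ) : n1_48 c i j ≤ 18446744073709551616 := cond_le (ln0 c i j) (le48 c i j)

theorem pn2_48 (c : ℕ) : Psd 4096 4611686018427387904 (n2_48 c) :=
  psd_cond (b := okc c 1) (f := n0 c) (g := n1_48 c) (pn0 c) (pn1_48 c)

theorem ln2_48 (c i j : ℕ) : n2_48 c i j ≤ 18446744073709551616 := cond_le (ln0 c i j) (ln1_48 c i j)

theorem pn3_48 (c : ℕ) : Psd 4096 4611686018427387904 (n3_48 c) :=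
  psd_cond (b := okc c 2) (f := n2_52 c) (g := n2_48 c) (pn2_52 c) (pn2_48 c)

theorem ln3_48 (c i j : ℕ) : n3_48 c i j ≤ 18446744073709551616 := cond_le (ln2_52 c i j) (ln2_48 c i j)

theorem pn4_48 (c : ℕ) : Psd 4096 4611686018427387904 (n4_48 c) :=
  psd_cond (b := okc c 3) (f := n3_56 c) (g := n3_48 c) (pn3_56 c) (pn3_48 c)

theorem ln4_48 (c i j : ℕ) : n4_48 c i j ≤ 18446744073709551616 := cond_le (ln3_56 c i j) (ln3_48 c i j)

theorem pe35 (c : ℕ) : Psd 4096 4611686018427387904 (e35 c) := by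
  have e : e35 c = lk y1_35 33 t1 := by funext i j; exact lk2_eq _ _ _ _ _
  rw [e]
  exact p1 _ fy1_35

theorem le35 (c i j : ℕ) : e35 c i j ≤ 18446744073709551616 := by
  have e : e35 c i j = lk y1_35 33 t1 i j := lk2_eq _ _ _ _ _
  rw [e]
  exact lk_le _ _ _ _ _

theorem pn1_34 (c : ℕ) : Psd 4096 4611686018427387904 (n1_34 c) :=
  psd_cond (b := okc c 0) (f := e35 c) (g := n0 c) (pe35 c) (pn0 c)

theorem ln1_34 (c i j : ℕ) : n1_34 c i j ≤ 18446744073709551616 := cond_le (le35 c i j) (ln0 c i j)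

theorem pe33 (c : ℕ) : Psd 4096 4611686018427387904 (e33 c) := by
  have e : e33 c = lk y2_33 37 t2 := by funext i j; exact lk2_eq _ _ _ _ _
  rw [e]
  exact p2 _ fy2_33

theorem le33 (c i j : ℕ) : e33 c i j ≤ 18446744073709551616 := by
  have e : e33 c i j = lk y2_33 37 t2 i j := lk2_eq _ _ _ _ _
  rw [e]
  exact lk_le _ _ _ _ _

theorem pe32 (c : ℕ) : Psd 4096 4611686018427387904 (e32 c) := by
  have e : e32 c = lk y0_32 58 t0 := by funext i j; exact lk2_eq _ _ _ _ _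
  rw [e]
  exact p0 _ fy0_32

theorem le32 (c i j : ℕ) : e32 c i j ≤ 18446744073709551616 := by
  have e : e32 c i j = lk y0_32 58 t0 i j := lk2_eq _ _ _ _ _
  rw [e]
  exact lk_le _ _ _ _ _

theorem pn1_32 (c : ℕ) : Psd 4096 4611686018427387904 (n1_32 c) :=
  psd_cond (b := okc c 0) (f := e33 c) (g := e32 c) (pe33 c) (pe32 c)

theorem ln1_32 (c i j : ℕ) : n1_32 c i j ≤ 18446744073709551616 := cond_le (le33 c i j) (le32 c i j)

theorem pn2_32 (c : ℕ) : Psd 4096 4611686018427387904 (n2_32 c) :=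
  psd_cond (b := okc c 1) (f := n1_34 c) (g := n1_32 c) (pn1_34 c) (pn1_32 c)

theorem ln2_32 (c i j : ℕ) : n2_32 c i j ≤ 18446744073709551616 := cond_le (ln1_34 c i j) (ln1_32 c i j)

theorem pn3_32 (c : ℕ) : Psd 4096 4611686018427387904 (n3_32 c) :=
  psd_cond (b := okc c 2) (f := n0 c) (g := n2_32 c) (pn0 c) (pn2_32 c)

theorem ln3_32 (c i j : ℕ) : n3_32 c i j ≤ 18446744073709551616 := cond_le (ln0 c i j) (ln2_32 c i j)

theorem pn4_32 (c : ℕ) : Psd 4096 4611686018427387904 (n4_32 c) :=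
  psd_cond (b := okc c 3) (f := n0 c) (g := n3_32 c) (pn0 c) (pn3_32 c)

theorem ln4_32 (c i j : ℕ) : n4_32 c i j ≤ 18446744073709551616 := cond_le (ln0 c i j) (ln3_32 c i j)

theorem pn5_32 (c : ℕ) : Psd 4096 4611686018427387904 (n5_32 c) :=
  psd_cond (b := okc c 4) (f := n4_48 c) (g := n4_32 c) (pn4_48 c) (pn4_32 c)

theorem ln5_32 (c i j : ℕ) : n5_32 c i j ≤ 18446744073709551616 := cond_le (ln4_48 c i j) (ln4_32 c i j)

theorem pe28 (c : ℕ) : Psd 4096 4611686018427387904 (e28 c) := by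
  have e : e28 c = lk y2_28 37 t2 := by funext i j; exact lk2_eq _ _ _ _ _
  rw [e]
  exact p2 _ fy2_28

theorem le28 (c i j : ℕ) : e28 c i j ≤ 18446744073709551616 := by
  have e : e28 c i j = lk y2_28 37 t2 i j := lk2_eq _ _ _ _ _
  rw [e]
  exact lk_le _ _ _ _ _

theorem pn1_28 (c : ℕ) : Psd 4096 4611686018427387904 (n1_28 c) :=
  psd_cond (b := okc c 0) (f := n0 c) (g := e28 c) (pn0 c) (pe28 c)

theorem ln1_28 (c i j : ℕ) : n1_28 c i j ≤ 18446744073709551616 := cond_le (ln0 c i j) (le28 c i j)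

theorem pn2_28 (c : ℕ) : Psd 4096 4611686018427387904 (n2_28 c) :=
  psd_cond (b := okc c 1) (f := n0 c) (g := n1_28 c) (pn0 c) (pn1_28 c)

theorem ln2_28 (c i j : ℕ) : n2_28 c i j ≤ 18446744073709551616 := cond_le (ln0 c i j) (ln1_28 c i j)

theorem pn3_24 (c : ℕ) : Psd 4096 4611686018427387904 (n3_24 c) :=
  psd_cond (b := okc c 2) (f := n2_28 c) (g := n0 c) (pn2_28 c) (pn0 c)

theorem ln3_24 (c i j : ℕ) : n3_24 c i j ≤ 18446744073709551616 := cond_le (ln2_28 c i j) (ln0 c i j)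

theorem pe20 (c : ℕ) : Psd 4096 4611686018427387904 (e20 c) := by
  have e : e20 c = lk y1_20 33 t1 := by funext i j; exact lk2_eq _ _ _ _ _
  rw [e]
  exact p1 _ fy1_20

theorem le20 (c i j : ℕ) : e20 c i j ≤ 18446744073709551616 := by
  have e : e20 c i j = lk y1_20 33 t1 i j := lk2_eq _ _ _ _ _
  rw [e]
  exact lk_le _ _ _ _ _

theorem pn1_20 (c : ℕ) : Psd 4096 4611686018427387904 (n1_20 c) :=
  psd_cond (b := okc c 0) (f := n0 c) (g := e20 c) (pn0 c) (pe20 c)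

theorem ln1_20 (c i j : ℕ) : n1_20 c i j ≤ 18446744073709551616 := cond_le (ln0 c i j) (le20 c i j)

theorem pn2_20 (c : ℕ) : Psd 4096 4611686018427387904 (n2_20 c) :=
  psd_cond (b := okc c 1) (f := n0 c) (g := n1_20 c) (pn0 c) (pn1_20 c)

theorem ln2_20 (c i j : ℕ) : n2_20 c i j ≤ 18446744073709551616 := cond_le (ln0 c i j) (ln1_20 c i j)

theorem pe19 (c : ℕ) : Psd 4096 4611686018427387904 (e19 c) := by
  have e : e19 c = lk y2_19 37 t2 := by funext i j; exact lk2_eq _ _ _ _ _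
  rw [e]
  exact p2 _ fy2_19

theorem le19 (c i j : ℕ) : e19 c i j ≤ 18446744073709551616 := by
  have e : e19 c i j = lk y2_19 37 t2 i j := lk2_eq _ _ _ _ _
  rw [e]
  exact lk_le _ _ _ _ _

theorem pn1_18 (c : ℕ) : Psd 4096 4611686018427387904 (n1_18 c) :=
  psd_cond (b := okc c 0) (f := e19 c) (g := n0 c) (pe19 c) (pn0 c)

theorem ln1_18 (c i j : ℕ) : n1_18 c i j ≤ 18446744073709551616 := cond_le (le19 c i j) (ln0 c i j)

theorem pe17 (c : ℕ) : Psd 4096 4611686018427387904 (e17 c) := by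
  have e : e17 c = lk y1_17 33 t1 := by funext i j; exact lk2_eq _ _ _ _ _
  rw [e]
  exact p1 _ fy1_17

theorem le17 (c i j : ℕ) : e17 c i j ≤ 18446744073709551616 := by
  have e : e17 c i j = lk y1_17 33 t1 i j := lk2_eq _ _ _ _ _
  rw [e]
  exact lk_le _ _ _ _ _

theorem pe16 (c : ℕ) : Psd 4096 4611686018427387904 (e16 c) := by
  have e : e16 c = lk y0_16 58 t0 := by funext i j; exact lk2_eq _ _ _ _ _
  rw [e]
  exact p0 _ fy0_16

theorem le16 (c i j : ℕ) : e16 c i j ≤ 18446744073709551616 := by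
  have e : e16 c i j = lk y0_16 58 t0 i j := lk2_eq _ _ _ _ _
  rw [e]
  exact lk_le _ _ _ _ _

theorem pn1_16 (c : ℕ) : Psd 4096 4611686018427387904 (n1_16 c) :=
  psd_cond (b := okc c 0) (f := e17 c) (g := e16 c) (pe17 c) (pe16 c)

theorem ln1_16 (c i j : ℕ) : n1_16 c i j ≤ 18446744073709551616 := cond_le (le17 c i j) (le16 c i j)

theorem pn2_16 (c : ℕ) : Psd 4096 4611686018427387904 (n2_16 c) :=
  psd_cond (b := okc c 1) (f := n1_18 c) (g := n1_16 c) (pn1_18 c) (pn1_16 c)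

theorem ln2_16 (c i j : ℕ) : n2_16 c i j ≤ 18446744073709551616 := cond_le (ln1_18 c i j) (ln1_16 c i j)

theorem pn3_16 (c : ℕ) : Psd 4096 4611686018427387904 (n3_16 c) :=
  psd_cond (b := okc c 2) (f := n2_20 c) (g := n2_16 c) (pn2_20 c) (pn2_16 c)

theorem ln3_16 (c i j : ℕ) : n3_16 c i j ≤ 18446744073709551616 := cond_le (ln2_20 c i j) (ln2_16 c i j)

theorem pn4_16 (c : ℕ) : Psd 4096 4611686018427387904 (n4_16 c) :=
  psd_cond (b := okc c 3) (f := n3_24 c) (g := n3_16 c) (pn3_24 c) (pn3_16 c)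

theorem ln4_16 (c i j : ℕ) : n4_16 c i j ≤ 18446744073709551616 := cond_le (ln3_24 c i j) (ln3_16 c i j)

theorem pe12 (c : ℕ) : Psd 4096 4611686018427387904 (e12 c) := by
  have e : e12 c = lk y0_12 58 t0 := by funext i j; exact lk2_eq _ _ _ _ _
  rw [e]
  exact p0 _ fy0_12

theorem le12 (c i j : ℕ) : e12 c i j ≤ 18446744073709551616 := by
  have e : e12 c i j = lk y0_12 58 t0 i j := lk2_eq _ _ _ _ _
  rw [e]
  exact lk_le _ _ _ _ _

theorem pn1_12 (c : ℕ) : Psd 4096 4611686018427387904 (n1_12 c) :=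
  psd_cond (b := okc c 0) (f := n0 c) (g := e12 c) (pn0 c) (pe12 c)

theorem ln1_12 (c i j : ℕ) : n1_12 c i j ≤ 18446744073709551616 := cond_le (ln0 c i j) (le12 c i j)

theorem pn2_12 (c : ℕ) : Psd 4096 4611686018427387904 (n2_12 c) :=
  psd_cond (b := okc c 1) (f := n0 c) (g := n1_12 c) (pn0 c) (pn1_12 c)

theorem ln2_12 (c i j : ℕ) : n2_12 c i j ≤ 18446744073709551616 := cond_le (ln0 c i j) (ln1_12 c i j)

theorem pe10 (c : ℕ) : Psd 4096 4611686018427387904 (e10 c) := by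
  have e : e10 c = lk y1_10 33 t1 := by funext i j; exact lk2_eq _ _ _ _ _
  rw [e]
  exact p1 _ fy1_10

theorem le10 (c i j : ℕ) : e10 c i j ≤ 18446744073709551616 := by
  have e : e10 c i j = lk y1_10 33 t1 i j := lk2_eq _ _ _ _ _
  rw [e]
  exact lk_le _ _ _ _ _

theorem pn1_10 (c : ℕ) : Psd 4096 4611686018427387904 (n1_10 c) :=
  psd_cond (b := okc c 0) (f := n0 c) (g := e10 c) (pn0 c) (pe10 c)

theorem ln1_10 (c i j : ℕ) : n1_10 c i j ≤ 18446744073709551616 := cond_le (ln0 c i j) (le10 c i j)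

theorem pe9 (c : ℕ) : Psd 4096 4611686018427387904 (e9 c) := by
  have e : e9 c = lk y2_9 37 t2 := by funext i j; exact lk2_eq _ _ _ _ _
  rw [e]
  exact p2 _ fy2_9

theorem le9 (c i j : ℕ) : e9 c i j ≤ 18446744073709551616 := by
  have e : e9 c i j = lk y2_9 37 t2 i j := lk2_eq _ _ _ _ _
  rw [e]
  exact lk_le _ _ _ _ _

theorem pe8 (c : ℕ) : Psd 4096 4611686018427387904 (e8 c) := by
  have e : e8 c = lk y0_8 58 t0 := by funext i j; exact lk2_eq _ _ _ _ _
  rw [e]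
  exact p0 _ fy0_8

theorem le8 (c i j : ℕ) : e8 c i j ≤ 18446744073709551616 := by
  have e : e8 c i j = lk y0_8 58 t0 i j := lk2_eq _ _ _ _ _
  rw [e]
  exact lk_le _ _ _ _ _

theorem pn1_8 (c : ℕ) : Psd 4096 4611686018427387904 (n1_8 c) :=
  psd_cond (b := okc c 0) (f := e9 c) (g := e8 c) (pe9 c) (pe8 c)

theorem ln1_8 (c i j : ℕ) : n1_8 c i j ≤ 18446744073709551616 := cond_le (le9 c i j) (le8 c i j)

theorem pn2_8 (c : ℕ) : Psd 4096 4611686018427387904 (n2_8 c) :=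
  psd_cond (b := okc c 1) (f := n1_10 c) (g := n1_8 c) (pn1_10 c) (pn1_8 c)

theorem ln2_8 (c i j : ℕ) : n2_8 c i j ≤ 18446744073709551616 := cond_le (ln1_10 c i j) (ln1_8 c i j)

theorem pn3_8 (c : ℕ) : Psd 4096 4611686018427387904 (n3_8 c) :=
  psd_cond (b := okc c 2) (f := n2_12 c) (g := n2_8 c) (pn2_12 c) (pn2_8 c)

theorem ln3_8 (c i j : ℕ) : n3_8 c i j ≤ 18446744073709551616 := cond_le (ln2_12 c i j) (ln2_8 c i j)

theorem pe6 (c : ℕ) : Psd 4096 4611686018427387904 (e6 c) := by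
  have e : e6 c = lk y2_6 37 t2 := by funext i j; exact lk2_eq _ _ _ _ _
  rw [e]
  exact p2 _ fy2_6

theorem le6 (c i j : ℕ) : e6 c i j ≤ 18446744073709551616 := by
  have e : e6 c i j = lk y2_6 37 t2 i j := lk2_eq _ _ _ _ _
  rw [e]
  exact lk_le _ _ _ _ _

theorem pn1_6 (c : ℕ) : Psd 4096 4611686018427387904 (n1_6 c) :=
  psd_cond (b := okc c 0) (f := n0 c) (g := e6 c) (pn0 c) (pe6 c)

theorem ln1_6 (c i j : ℕ) : n1_6 c i j ≤ 18446744073709551616 := cond_le (ln0 c i j) (le6 c i j)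

theorem pe5 (c : ℕ) : Psd 4096 4611686018427387904 (e5 c) := by
  have e : e5 c = lk y1_5 33 t1 := by funext i j; exact lk2_eq _ _ _ _ _
  rw [e]
  exact p1 _ fy1_5

theorem le5 (c i j : ℕ) : e5 c i j ≤ 18446744073709551616 := by
  have e : e5 c i j = lk y1_5 33 t1 i j := lk2_eq _ _ _ _ _
  rw [e]
  exact lk_le _ _ _ _ _

theorem pe4 (c : ℕ) : Psd 4096 4611686018427387904 (e4 c) := by
  have e : e4 c = lk y0_4 58 t0 := by funext i j; exact lk2_eq _ _ _ _ _
  rw [e]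
  exact p0 _ fy0_4

theorem le4 (c i j : ℕ) : e4 c i j ≤ 18446744073709551616 := by
  have e : e4 c i j = lk y0_4 58 t0 i j := lk2_eq _ _ _ _ _
  rw [e]
  exact lk_le _ _ _ _ _

theorem pn1_4 (c : ℕ) : Psd 4096 4611686018427387904 (n1_4 c) :=
  psd_cond (b := okc c 0) (f := e5 c) (g := e4 c) (pe5 c) (pe4 c)

theorem ln1_4 (c i j : ℕ) : n1_4 c i j ≤ 18446744073709551616 := cond_le (le5 c i j) (le4 c i j)

theorem pn2_4 (c : ℕ) : Psd 4096 4611686018427387904 (n2_4 c) :=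
  psd_cond (b := okc c 1) (f := n1_6 c) (g := n1_4 c) (pn1_6 c) (pn1_4 c)

theorem ln2_4 (c i j : ℕ) : n2_4 c i j ≤ 18446744073709551616 := cond_le (ln1_6 c i j) (ln1_4 c i j)

theorem pe3 (c : ℕ) : Psd 4096 4611686018427387904 (e3 c) := by
  have e : e3 c = lk y0_3 58 t0 := by funext i j; exact lk2_eq _ _ _ _ _
  rw [e]
  exact p0 _ fy0_3

theorem le3 (c i j : ℕ) : e3 c i j ≤ 18446744073709551616 := by
  have e : e3 c i j = lk y0_3 58 t0 i j := lk2_eq _ _ _ _ _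
  rw [e]
  exact lk_le _ _ _ _ _

theorem pe2 (c : ℕ) : Psd 4096 4611686018427387904 (e2 c) := by
  have e : e2 c = lk y0_2 58 t0 := by funext i j; exact lk2_eq _ _ _ _ _
  rw [e]
  exact p0 _ fy0_2

theorem le2 (c i j : ℕ) : e2 c i j ≤ 18446744073709551616 := by
  have e : e2 c i j = lk y0_2 58 t0 i j := lk2_eq _ _ _ _ _
  rw [e]
  exact lk_le _ _ _ _ _

theorem pn1_2 (c : ℕ) : Psd 4096 4611686018427387904 (n1_2 c) :=
  psd_cond (b := okc c 0) (f := e3 c) (g := e2 c) (pe3 c) (pe2 c)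

theorem ln1_2 (c i j : ℕ) : n1_2 c i j ≤ 18446744073709551616 := cond_le (le3 c i j) (le2 c i j)

theorem pe1 (c : ℕ) : Psd 4096 4611686018427387904 (e1 c) := by
  have e : e1 c = lk y0_1 58 t0 := by funext i j; exact lk2_eq _ _ _ _ _
  rw [e]
  exact p0 _ fy0_1

theorem le1 (c i j : ℕ) : e1 c i j ≤ 18446744073709551616 := by
  have e : e1 c i j = lk y0_1 58 t0 i j := lk2_eq _ _ _ _ _
  rw [e]
  exact lk_le _ _ _ _ _

theorem pn1_0 (c : ℕ) : Psd 4096 4611686018427387904 (n1_0 c) :=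
  psd_cond (b := okc c 0) (f := e1 c) (g := n0 c) (pe1 c) (pn0 c)

theorem ln1_0 (c i j : ℕ) : n1_0 c i j ≤ 18446744073709551616 := cond_le (le1 c i j) (ln0 c i j)

theorem pn2_0 (c : ℕ) : Psd 4096 4611686018427387904 (n2_0 c) :=
  psd_cond (b := okc c 1) (f := n1_2 c) (g := n1_0 c) (pn1_2 c) (pn1_0 c)

theorem ln2_0 (c i j : ℕ) : n2_0 c i j ≤ 18446744073709551616 := cond_le (ln1_2 c i j) (ln1_0 c i j)

theorem pn3_0 (c : ℕ) : Psd 4096 4611686018427387904 (n3_0 c) :=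
  psd_cond (b := okc c 2) (f := n2_4 c) (g := n2_0 c) (pn2_4 c) (pn2_0 c)

theorem ln3_0 (c i j : ℕ) : n3_0 c i j ≤ 18446744073709551616 := cond_le (ln2_4 c i j) (ln2_0 c i j)

theorem pn4_0 (c : ℕ) : Psd 4096 4611686018427387904 (n4_0 c) :=
  psd_cond (b := okc c 3) (f := n3_8 c) (g := n3_0 c) (pn3_8 c) (pn3_0 c)

theorem ln4_0 (c i j : ℕ) : n4_0 c i j ≤ 18446744073709551616 := cond_le (ln3_8 c i j) (ln3_0 c i j)

theorem pn5_0 (c : ℕ) : Psd 4096 4611686018427387904 (n5_0 c) :=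
  psd_cond (b := okc c 4) (f := n4_16 c) (g := n4_0 c) (pn4_16 c) (pn4_0 c)

theorem ln5_0 (c i j : ℕ) : n5_0 c i j ≤ 18446744073709551616 := cond_le (ln4_16 c i j) (ln4_0 c i j)

theorem pn6_0 (c : ℕ) : Psd 4096 4611686018427387904 (n6_0 c) :=
  psd_cond (b := okc c 5) (f := n5_32 c) (g := n5_0 c) (pn5_32 c) (pn5_0 c)

theorem ln6_0 (c i j : ℕ) : n6_0 c i j ≤ 18446744073709551616 := cond_le (ln5_32 c i j) (ln5_0 c i j)

theorem pn7_0 (c : ℕ) : Psd 4096 4611686018427387904 (n7_0 c) :=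
  psd_cond (b := okc c 6) (f := n6_64 c) (g := n6_0 c) (pn6_64 c) (pn6_0 c)

theorem ln7_0 (c i j : ℕ) : n7_0 c i j ≤ 18446744073709551616 := cond_le (ln6_64 c i j) (ln6_0 c i j)

theorem pn8_0 (c : ℕ) : Psd 4096 4611686018427387904 (n8_0 c) :=
  psd_cond (b := okc c 7) (f := n7_128 c) (g := n7_0 c) (pn7_128 c) (pn7_0 c)

theorem ln8_0 (c i j : ℕ) : n8_0 c i j ≤ 18446744073709551616 := cond_le (ln7_128 c i j) (ln7_0 c i j)

theorem q_eq (c i j : ℕ) : q c i j = n8_0 c i j := by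
  unfold q
  rw [wl_eq, wl_eq, wl_eq]

theorem qpsd (c : ℕ) : Psd 4096 4611686018427387904 (q c) := by
  have e : q c = n8_0 c := by funext i j; exact q_eq c i j
  rw [e]
  exact pn8_0 c

theorem qle (c i j : ℕ) : q c i j ≤ 18446744073709551616 := by
  rw [q_eq]
  exact ln8_0 c i j

theorem p_eq (i j : ℕ) : p i j = lk y3 29 t3 i j := by
  unfold p
  rw [wl_eq, wl_eq, lk2_eq]

theorem ppsd : Psd 256 4611686018427387904 p := by
  have e : p = lk y3 29 t3 := by funext i j; exact p_eq i j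
  rw [e]
  exact p3 y3 fy3

theorem ple (i j : ℕ) : p i j ≤ 18446744073709551616 := by
  rw [p_eq]
  exact lk_le _ _ _ _ _

open Finset in
theorem main {n : ℕ} (H : Finset (Finset (Fin n))) (h3 : ∀ e ∈ H, e.card = 3)
    (t : Fin n → Fin n → Fin n → ℕ) (ht : ∀ a b c, t a b c < 4)
    (t12 : ∀ a b c, t b a c = s12 (t a b c)) (t23 : ∀ a b c, t a c b = s23 (t a b c))
    (hH : ∀ a b c, ({a, b, c} : Finset (Fin n)) ∈ H → t a b c = 0)
    (E : Finset (Finset (Fin n))) (hE : ∀ e ∈ E, e.card = 4)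
    (hok : ∀ a b c d : Fin n, a ≠ b → a ≠ c → a ≠ d → b ≠ c → b ≠ d → c ≠ d →
      ({a, b, c, d} : Finset (Fin n)) ∉ E →
      okc 9105446378665370970414495782467130278682685432304100497532396655114461058942 (c4 (t a b c) (t a b d) (t a c d) (t b c d)) = true) :
    54 * (n * H.card) ≤ 5 * n ^ 4 + 88000000 * (n ^ 3 + E.card) := by
  have pr : ∀ a b c, P4 (t a b c) (t a c b) (t b c a) (if t a b c = 0 then 1 else 0) :=
    fun a b c => P4_of (ht a b c) (t23 a b c) (by rw [t23 b a c, t12 a b c]) rfl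
  have f := flag_bt (h := fun a b c => if t a b c = 0 then 1 else 0) ht pr E hok
    (fun c _ => qpsd c) ppsd qle ple chk
    (Pool.Agent.Helper41.BT.bad_card E hE)
  exact top_bt H h3 _ (fun a b c h => if_pos (hH a b c h)) 216172782113783808 4611686018427387904 4611686018427387904 18446744073709551616 88000000 E.card (by decide)
    (by decide) f

end Pool.Agent.Helper10.Bt
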