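import Pool.Agent.Helper10.Bt.Defs

/-! The enumeration of all structures on six points. -/

set_option autoImplicit false
set_option maxRecDepth 100000
set_option linter.unusedVariables false
set_option linter.unusedSectionVars false

namespace Pool.Agent.Helper10.Bt
open Pool.Agent.Helper10.Sw

def chkRep (OK K B : ℕ) (q : ℕ → ℕ → ℕ → ℕ) (p : ℕ → ℕ → ℕ) (v a012 b012 c012 h012 a013 b013 c013 h013 a023 b023 c023 h023 a123 b123 c123 h123 : ℕ) : Bool :=
  A4 fun a014 b014 c014 h014 => cond (Nat.beq a014 v)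
  (A4 fun a024 b024 c024 h024 => A4 fun a124 b124 c124 h124 => 
  cond (okc OK (c4 a012 a014 a024 a124))
  (A4 fun a034 b034 c034 h034 => A4 fun a134 b134 c134 h134 => 
  cond (okc OK (c4 a013 a014 a034 a134))
  (A4 fun a234 b234 c234 h234 => 
  cond (and (okc OK (c4 a023 a024 a034 a234)) (okc OK (c4 a123 a124 a134 a234)))
  (A4 fun a015 b015 c015 h015 => A4 fun a025 b025 c025 h025 => A4 fun a125 b125 c125 h125 => 
  cond (okc OK (c4 a012 a015 a025 a125))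
  (A4 fun a035 b035 c035 h035 => A4 fun a135 b135 c135 h135 => 
  cond (okc OK (c4 a013 a015 a035 a135))
  (A4 fun a235 b235 c235 h235 => 
  cond (and (okc OK (c4 a023 a025 a035 a235)) (okc OK (c4 a123 a125 a135 a235)))
  (A4 fun a045 b045 c045 h045 => A4 fun a145 b145 c145 h145 => 
  cond (okc OK (c4 a014 a015 a045 a145))
  (A4 fun a245 b245 c245 h245 => 
  cond (and (okc OK (c4 a024 a025 a045 a245)) (okc OK (c4 a124 a125 a145 a245)))
  (A4 fun a345 b345 c345 h345 => 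
  cond (and (okc OK (c4 a034 a035 a045 a345)) (and (okc OK (c4 a134 a135 a145 a345)) (okc OK (c4 a234 a235 a245 a345))))
  (Nat.ble (leaf K q p a012 b012 c012 h012 a013 b013 c013 h013 a014 b014 c014 h014 a015 b015 c015 h015 a023 b023 c023 h023 a024 b024 c024 h024 a025 b025 c025 h025 a034 b034 c034 h034 a035 b035 c035 h035 a045 b045 c045 h045 a123 b123 c123 h123 a124 b124 c124 h124 a125 b125 c125 h125 a134 b134 c134 h134 a135 b135 c135 h135 a145 b145 c145 h145 a234 b234 c234 h234 a235 b235 c235 h235 a245 b245 c245 h245 a345 b345 c345 h345) B) true) true) true) true) true) true) true) true) true) true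

def chkAll (OK K B : ℕ) (q : ℕ → ℕ → ℕ → ℕ) (p : ℕ → ℕ → ℕ) (T v : ℕ) : Bool :=
  A4 fun a012 b012 c012 h012 => A4 fun a013 b013 c013 h013 => A4 fun a023 b023 c023 h023 => A4 fun a123 b123 c123 h123 => 
  cond (okc T (c4 a012 a013 a023 a123)) (chkRep OK K B q p v a012 b012 c012 h012 a013 b013 c013 h013 a023 b023 c023 h023 a123 b123 c123 h123) true

theorem cnd {c a : Bool} (h : cond c a true = true) (hc : c = true) : a = true := by
  rw [hc] at h
  exact h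

section
variable {V : Type} (t h : V → V → V → ℕ)

/-- the admissible six-tuples of points -/
structure Adm (OK : ℕ) (x : Fin 6 → V) : Prop where
  pr : ∀ i j k : Fin 6, P4 (t (x i) (x j) (x k)) (t (x i) (x k) (x j)) (t (x j) (x k) (x i))
    (h (x i) (x j) (x k))
  ok : ∀ i j k l : Fin 6, i < j → j < k → k < l → okc OK (c4 (t (x i) (x j) (x k))
    (t (x i) (x j) (x l)) (t (x i) (x k) (x l)) (t (x j) (x k) (x l))) = true

variable {t h}

theorem chkRep_true {OK K B : ℕ} {q : ℕ → ℕ → ℕ → ℕ} {p : ℕ → ℕ → ℕ} {x : Fin 6 → V}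
    (A : Adm t h OK x) (H : chkRep OK K B q p (t (x 0) (x 1) (x 4)) (t (x 0) (x 1) (x 2)) (t (x 0) (x 2) (x 1)) (t (x 1) (x 2) (x 0)) (h (x 0) (x 1) (x 2)) (t (x 0) (x 1) (x 3)) (t (x 0) (x 3) (x 1)) (t (x 1) (x 3) (x 0)) (h (x 0) (x 1) (x 3)) (t (x 0) (x 2) (x 3)) (t (x 0) (x 3) (x 2)) (t (x 2) (x 3) (x 0)) (h (x 0) (x 2) (x 3)) (t (x 1) (x 2) (x 3)) (t (x 1) (x 3) (x 2)) (t (x 2) (x 3) (x 1)) (h (x 1) (x 2) (x 3)) = true) :
    EE (F4v t q) (F2v t p) h K (x 0) (x 1) (x 2) (x 3) (x 4) (x 5) ≤ B := by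
  have e0 := cnd (A4_true (A4_true (cnd (A4_true H (A.pr 0 1 4)) (Nat.beq_refl _)) (A.pr 0 2 4)) (A.pr 1 2 4)) (A.ok 0 1 2 4 (by decide) (by decide) (by decide))
  have e1 := cnd (A4_true (A4_true e0 (A.pr 0 3 4)) (A.pr 1 3 4)) (A.ok 0 1 3 4 (by decide) (by decide) (by decide))
  have e2 := cnd (A4_true e1 (A.pr 2 3 4)) (by rw [Bool.and_eq_true]; exact ⟨(A.ok 0 2 3 4 (by decide) (by decide) (by decide)), (A.ok 1 2 3 4 (by decide) (by decide) (by decide))⟩)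
  have e3 := cnd (A4_true (A4_true (A4_true e2 (A.pr 0 1 5)) (A.pr 0 2 5)) (A.pr 1 2 5)) (A.ok 0 1 2 5 (by decide) (by decide) (by decide))
  have e4 := cnd (A4_true (A4_true e3 (A.pr 0 3 5)) (A.pr 1 3 5)) (A.ok 0 1 3 5 (by decide) (by decide) (by decide))
  have e5 := cnd (A4_true e4 (A.pr 2 3 5)) (by rw [Bool.and_eq_true]; exact ⟨(A.ok 0 2 3 5 (by decide) (by decide) (by decide)), (A.ok 1 2 3 5 (by decide) (by decide) (by decide))⟩)
  have e6 := cnd (A4_true (A4_true e5 (A.pr 0 4 5)) (A.pr 1 4 5)) (A.ok 0 1 4 5 (by decide) (by decide) (by decide))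
  have e7 := cnd (A4_true e6 (A.pr 2 4 5)) (by rw [Bool.and_eq_true]; exact ⟨(A.ok 0 2 4 5 (by decide) (by decide) (by decide)), (A.ok 1 2 4 5 (by decide) (by decide) (by decide))⟩)
  have e8 := cnd (A4_true e7 (A.pr 3 4 5)) (by rw [Bool.and_eq_true, Bool.and_eq_true]; exact ⟨(A.ok 0 3 4 5 (by decide) (by decide) (by decide)), (A.ok 1 3 4 5 (by decide) (by decide) (by decide)), (A.ok 2 3 4 5 (by decide) (by decide) (by decide))⟩)
  rw [EE_leaf]
  exact Nat.le_of_ble_eq_true e8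

theorem chkAll_true {OK K B T : ℕ} {q : ℕ → ℕ → ℕ → ℕ} {p : ℕ → ℕ → ℕ} {x : Fin 6 → V}
    (A : Adm t h OK x) (H : chkAll OK K B q p T (t (x 0) (x 1) (x 4)) = true)
    (hT : okc T (c4 (t (x 0) (x 1) (x 2)) (t (x 0) (x 1) (x 3)) (t (x 0) (x 2) (x 3)) (t (x 1) (x 2) (x 3))) = true) :
    EE (F4v t q) (F2v t p) h K (x 0) (x 1) (x 2) (x 3) (x 4) (x 5) ≤ B :=
  chkRep_true A (cnd (A4_true (A4_true (A4_true (A4_true H (A.pr 0 1 2)) (A.pr 0 1 3)) (A.pr 0 2 3)) (A.pr 1 2 3)) hT)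

theorem bound_of {OK K B : ℕ} {q : ℕ → ℕ → ℕ → ℕ} {p : ℕ → ℕ → ℕ} {x : Fin 6 → V}
    (A : Adm t h OK x)
    (hchk : ∀ c v, okc OK c = true → v < 4 → ∃ T', okc T' c = true ∧
      chkAll OK K B q p T' v = true) :
    EE (F4v t q) (F2v t p) h K (x 0) (x 1) (x 2) (x 3) (x 4) (x 5) ≤ B := by
  have hv : t (x 0) (x 1) (x 4) < 4 := by
    rcases A.pr 0 1 4 with ⟨h, -⟩ | ⟨h, -⟩ | ⟨h, -⟩ | ⟨h, -⟩ <;> omega
  obtain ⟨T', hT', hc⟩ := hchk _ _ (A.ok 0 1 2 3 (by decide) (by decide) (by decide)) hv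
  exact chkAll_true A hc hT'

end

end Pool.Agent.Helper10.Bt
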