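import Pool.Agent.Helper10.Bt.D3

/-! Indices of the flags, table 3. -/

set_option autoImplicit false
set_option maxRecDepth 1000000
set_option linter.all false

namespace Pool.Agent.Helper10.Bt
open Pool.Agent.Helper10.Sw

noncomputable def y3 : ℕ := 0x8000008000000000000000900000000000000000000000000000000000009000000000000000000000000000016001b0012000000001612000000000b000000000000000000000000000000001a0006000000000500000000130c0000000000000000000000000000140000001100000015000000000000000100000000000000000b000000000000000c0000000000000000000000000000140000000000060000000005001a00001300000000000000000000000011150001000000180000000000001c10180010020000000f0000000000000017000000030000000000000000000000000f0017030000000a000e190700190d040a070400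

theorem fy3 : fxc 256 29 y3 = true := by decide +kernel

end Pool.Agent.Helper10.Bt
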