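import Pool.Agent.Helper10.Bt.X0
import Pool.Agent.Helper10.Bt.X1
import Pool.Agent.Helper10.Bt.X2
import Pool.Agent.Helper10.Bt.X3
import Pool.Agent.Helper10.Bt.Red

/-! The values of the certificate. -/

set_option autoImplicit false
set_option maxRecDepth 1000000
set_option linter.all false

namespace Pool.Agent.Helper10.Bt
open Pool.Agent.Helper10.Sw

def n0 (c i j : ℕ) : ℕ := 4611686018427387904

noncomputable def e240 (c i j : ℕ) : ℕ := lk2 y1_240 33 t1 i j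

noncomputable def n1_240 (c i j : ℕ) : ℕ := cond (okc c 0) (n0 c i j) (e240 c i j)

noncomputable def n2_240 (c i j : ℕ) : ℕ := cond (okc c 1) (n0 c i j) (n1_240 c i j)

noncomputable def n3_240 (c i j : ℕ) : ℕ := cond (okc c 2) (n0 c i j) (n2_240 c i j)

noncomputable def n4_240 (c i j : ℕ) : ℕ := cond (okc c 3) (n0 c i j) (n3_240 c i j)

noncomputable def e224 (c i j : ℕ) : ℕ := lk2 y2_224 37 t2 i j

noncomputable def n1_224 (c i j : ℕ) : ℕ := cond (okc c 0) (n0 c i j) (e224 c i j)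

noncomputable def n2_224 (c i j : ℕ) : ℕ := cond (okc c 1) (n0 c i j) (n1_224 c i j)

noncomputable def n3_224 (c i j : ℕ) : ℕ := cond (okc c 2) (n0 c i j) (n2_224 c i j)

noncomputable def n4_224 (c i j : ℕ) : ℕ := cond (okc c 3) (n0 c i j) (n3_224 c i j)

noncomputable def n5_224 (c i j : ℕ) : ℕ := cond (okc c 4) (n4_240 c i j) (n4_224 c i j)

noncomputable def e204 (c i j : ℕ) : ℕ := lk2 y1_204 33 t1 i j

noncomputable def n1_204 (c i j : ℕ) : ℕ := cond (okc c 0) (n0 c i j) (e204 c i j)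

noncomputable def n2_204 (c i j : ℕ) : ℕ := cond (okc c 1) (n0 c i j) (n1_204 c i j)

noncomputable def e200 (c i j : ℕ) : ℕ := lk2 y2_200 37 t2 i j

noncomputable def n1_200 (c i j : ℕ) : ℕ := cond (okc c 0) (n0 c i j) (e200 c i j)

noncomputable def n2_200 (c i j : ℕ) : ℕ := cond (okc c 1) (n0 c i j) (n1_200 c i j)

noncomputable def n3_200 (c i j : ℕ) : ℕ := cond (okc c 2) (n2_204 c i j) (n2_200 c i j)

noncomputable def e192 (c i j : ℕ) : ℕ := lk2 y0_192 58 t0 i j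

noncomputable def n1_192 (c i j : ℕ) : ℕ := cond (okc c 0) (n0 c i j) (e192 c i j)

noncomputable def n2_192 (c i j : ℕ) : ℕ := cond (okc c 1) (n0 c i j) (n1_192 c i j)

noncomputable def n3_192 (c i j : ℕ) : ℕ := cond (okc c 2) (n0 c i j) (n2_192 c i j)

noncomputable def n4_192 (c i j : ℕ) : ℕ := cond (okc c 3) (n3_200 c i j) (n3_192 c i j)

noncomputable def n5_192 (c i j : ℕ) : ℕ := cond (okc c 4) (n0 c i j) (n4_192 c i j)

noncomputable def n6_192 (c i j : ℕ) : ℕ := cond (okc c 5) (n5_224 c i j) (n5_192 c i j)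

noncomputable def e176 (c i j : ℕ) : ℕ := lk2 y2_176 37 t2 i j

noncomputable def n1_176 (c i j : ℕ) : ℕ := cond (okc c 0) (n0 c i j) (e176 c i j)

noncomputable def n2_176 (c i j : ℕ) : ℕ := cond (okc c 1) (n0 c i j) (n1_176 c i j)

noncomputable def n3_176 (c i j : ℕ) : ℕ := cond (okc c 2) (n0 c i j) (n2_176 c i j)

noncomputable def n4_176 (c i j : ℕ) : ℕ := cond (okc c 3) (n0 c i j) (n3_176 c i j)

noncomputable def e160 (c i j : ℕ) : ℕ := lk2 y1_160 33 t1 i j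

noncomputable def n1_160 (c i j : ℕ) : ℕ := cond (okc c 0) (n0 c i j) (e160 c i j)

noncomputable def n2_160 (c i j : ℕ) : ℕ := cond (okc c 1) (n0 c i j) (n1_160 c i j)

noncomputable def n3_160 (c i j : ℕ) : ℕ := cond (okc c 2) (n0 c i j) (n2_160 c i j)

noncomputable def n4_160 (c i j : ℕ) : ℕ := cond (okc c 3) (n0 c i j) (n3_160 c i j)

noncomputable def n5_160 (c i j : ℕ) : ℕ := cond (okc c 4) (n4_176 c i j) (n4_160 c i j)

noncomputable def e131 (c i j : ℕ) : ℕ := lk2 y1_131 33 t1 i j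

noncomputable def e130 (c i j : ℕ) : ℕ := lk2 y2_130 37 t2 i j

noncomputable def n1_130 (c i j : ℕ) : ℕ := cond (okc c 0) (e131 c i j) (e130 c i j)

noncomputable def e128 (c i j : ℕ) : ℕ := lk2 y0_128 58 t0 i j

noncomputable def n1_128 (c i j : ℕ) : ℕ := cond (okc c 0) (n0 c i j) (e128 c i j)

noncomputable def n2_128 (c i j : ℕ) : ℕ := cond (okc c 1) (n1_130 c i j) (n1_128 c i j)

noncomputable def n3_128 (c i j : ℕ) : ℕ := cond (okc c 2) (n0 c i j) (n2_128 c i j)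

noncomputable def n4_128 (c i j : ℕ) : ℕ := cond (okc c 3) (n0 c i j) (n3_128 c i j)

noncomputable def n5_128 (c i j : ℕ) : ℕ := cond (okc c 4) (n0 c i j) (n4_128 c i j)

noncomputable def n6_128 (c i j : ℕ) : ℕ := cond (okc c 5) (n5_160 c i j) (n5_128 c i j)

noncomputable def n7_128 (c i j : ℕ) : ℕ := cond (okc c 6) (n6_192 c i j) (n6_128 c i j)

noncomputable def e76 (c i j : ℕ) : ℕ := lk2 y2_76 37 t2 i j

noncomputable def n1_76 (c i j : ℕ) : ℕ := cond (okc c 0) (n0 c i j) (e76 c i j)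

noncomputable def n2_76 (c i j : ℕ) : ℕ := cond (okc c 1) (n0 c i j) (n1_76 c i j)

noncomputable def e72 (c i j : ℕ) : ℕ := lk2 y1_72 33 t1 i j

noncomputable def n1_72 (c i j : ℕ) : ℕ := cond (okc c 0) (n0 c i j) (e72 c i j)

noncomputable def n2_72 (c i j : ℕ) : ℕ := cond (okc c 1) (n0 c i j) (n1_72 c i j)

noncomputable def n3_72 (c i j : ℕ) : ℕ := cond (okc c 2) (n2_76 c i j) (n2_72 c i j)

noncomputable def e67 (c i j : ℕ) : ℕ := lk2 y2_67 37 t2 i j

noncomputable def e66 (c i j : ℕ) : ℕ := lk2 y1_66 33 t1 i j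

noncomputable def n1_66 (c i j : ℕ) : ℕ := cond (okc c 0) (e67 c i j) (e66 c i j)

noncomputable def e64 (c i j : ℕ) : ℕ := lk2 y0_64 58 t0 i j

noncomputable def n1_64 (c i j : ℕ) : ℕ := cond (okc c 0) (n0 c i j) (e64 c i j)

noncomputable def n2_64 (c i j : ℕ) : ℕ := cond (okc c 1) (n1_66 c i j) (n1_64 c i j)

noncomputable def n3_64 (c i j : ℕ) : ℕ := cond (okc c 2) (n0 c i j) (n2_64 c i j)

noncomputable def n4_64 (c i j : ℕ) : ℕ := cond (okc c 3) (n3_72 c i j) (n3_64 c i j)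

noncomputable def n5_64 (c i j : ℕ) : ℕ := cond (okc c 4) (n0 c i j) (n4_64 c i j)

noncomputable def n6_64 (c i j : ℕ) : ℕ := cond (okc c 5) (n0 c i j) (n5_64 c i j)

noncomputable def e60 (c i j : ℕ) : ℕ := lk2 y1_60 33 t1 i j

noncomputable def n1_60 (c i j : ℕ) : ℕ := cond (okc c 0) (n0 c i j) (e60 c i j)

noncomputable def n2_60 (c i j : ℕ) : ℕ := cond (okc c 1) (n0 c i j) (n1_60 c i j)

noncomputable def n3_56 (c i j : ℕ) : ℕ := cond (okc c 2) (n2_60 c i j) (n0 c i j)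

noncomputable def e52 (c i j : ℕ) : ℕ := lk2 y2_52 37 t2 i j

noncomputable def n1_52 (c i j : ℕ) : ℕ := cond (okc c 0) (n0 c i j) (e52 c i j)

noncomputable def n2_52 (c i j : ℕ) : ℕ := cond (okc c 1) (n0 c i j) (n1_52 c i j)

noncomputable def e48 (c i j : ℕ) : ℕ := lk2 y0_48 58 t0 i j

noncomputable def n1_48 (c i j : ℕ) : ℕ := cond (okc c 0) (n0 c i j) (e48 c i j)

noncomputable def n2_48 (c i j : ℕ) : ℕ := cond (okc c 1) (n0 c i j) (n1_48 c i j)

noncomputable def n3_48 (c i j : ℕ) : ℕ := cond (okc c 2) (n2_52 c i j) (n2_48 c i j)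

noncomputable def n4_48 (c i j : ℕ) : ℕ := cond (okc c 3) (n3_56 c i j) (n3_48 c i j)

noncomputable def e35 (c i j : ℕ) : ℕ := lk2 y1_35 33 t1 i j

noncomputable def n1_34 (c i j : ℕ) : ℕ := cond (okc c 0) (e35 c i j) (n0 c i j)

noncomputable def e33 (c i j : ℕ) : ℕ := lk2 y2_33 37 t2 i j

noncomputable def e32 (c i j : ℕ) : ℕ := lk2 y0_32 58 t0 i j

noncomputable def n1_32 (c i j : ℕ) : ℕ := cond (okc c 0) (e33 c i j) (e32 c i j)

noncomputable def n2_32 (c i j : ℕ) : ℕ := cond (okc c 1) (n1_34 c i j) (n1_32 c i j)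

noncomputable def n3_32 (c i j : ℕ) : ℕ := cond (okc c 2) (n0 c i j) (n2_32 c i j)

noncomputable def n4_32 (c i j : ℕ) : ℕ := cond (okc c 3) (n0 c i j) (n3_32 c i j)

noncomputable def n5_32 (c i j : ℕ) : ℕ := cond (okc c 4) (n4_48 c i j) (n4_32 c i j)

noncomputable def e28 (c i j : ℕ) : ℕ := lk2 y2_28 37 t2 i j

noncomputable def n1_28 (c i j : ℕ) : ℕ := cond (okc c 0) (n0 c i j) (e28 c i j)

noncomputable def n2_28 (c i j : ℕ) : ℕ := cond (okc c 1) (n0 c i j) (n1_28 c i j)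

noncomputable def n3_24 (c i j : ℕ) : ℕ := cond (okc c 2) (n2_28 c i j) (n0 c i j)

noncomputable def e20 (c i j : ℕ) : ℕ := lk2 y1_20 33 t1 i j

noncomputable def n1_20 (c i j : ℕ) : ℕ := cond (okc c 0) (n0 c i j) (e20 c i j)

noncomputable def n2_20 (c i j : ℕ) : ℕ := cond (okc c 1) (n0 c i j) (n1_20 c i j)

noncomputable def e19 (c i j : ℕ) : ℕ := lk2 y2_19 37 t2 i j

noncomputable def n1_18 (c i j : ℕ) : ℕ := cond (okc c 0) (e19 c i j) (n0 c i j)

noncomputable def e17 (c i j : ℕ) : ℕ := lk2 y1_17 33 t1 i j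

noncomputable def e16 (c i j : ℕ) : ℕ := lk2 y0_16 58 t0 i j

noncomputable def n1_16 (c i j : ℕ) : ℕ := cond (okc c 0) (e17 c i j) (e16 c i j)

noncomputable def n2_16 (c i j : ℕ) : ℕ := cond (okc c 1) (n1_18 c i j) (n1_16 c i j)

noncomputable def n3_16 (c i j : ℕ) : ℕ := cond (okc c 2) (n2_20 c i j) (n2_16 c i j)

noncomputable def n4_16 (c i j : ℕ) : ℕ := cond (okc c 3) (n3_24 c i j) (n3_16 c i j)

noncomputable def e12 (c i j : ℕ) : ℕ := lk2 y0_12 58 t0 i j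

noncomputable def n1_12 (c i j : ℕ) : ℕ := cond (okc c 0) (n0 c i j) (e12 c i j)

noncomputable def n2_12 (c i j : ℕ) : ℕ := cond (okc c 1) (n0 c i j) (n1_12 c i j)

noncomputable def e10 (c i j : ℕ) : ℕ := lk2 y1_10 33 t1 i j

noncomputable def n1_10 (c i j : ℕ) : ℕ := cond (okc c 0) (n0 c i j) (e10 c i j)

noncomputable def e9 (c i j : ℕ) : ℕ := lk2 y2_9 37 t2 i j

noncomputable def e8 (c i j : ℕ) : ℕ := lk2 y0_8 58 t0 i j

noncomputable def n1_8 (c i j : ℕ) : ℕ := cond (okc c 0) (e9 c i j) (e8 c i j)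

noncomputable def n2_8 (c i j : ℕ) : ℕ := cond (okc c 1) (n1_10 c i j) (n1_8 c i j)

noncomputable def n3_8 (c i j : ℕ) : ℕ := cond (okc c 2) (n2_12 c i j) (n2_8 c i j)

noncomputable def e6 (c i j : ℕ) : ℕ := lk2 y2_6 37 t2 i j

noncomputable def n1_6 (c i j : ℕ) : ℕ := cond (okc c 0) (n0 c i j) (e6 c i j)

noncomputable def e5 (c i j : ℕ) : ℕ := lk2 y1_5 33 t1 i j

noncomputable def e4 (c i j : ℕ) : ℕ := lk2 y0_4 58 t0 i j

noncomputable def n1_4 (c i j : ℕ) : ℕ := cond (okc c 0) (e5 c i j) (e4 c i j)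

noncomputable def n2_4 (c i j : ℕ) : ℕ := cond (okc c 1) (n1_6 c i j) (n1_4 c i j)

noncomputable def e3 (c i j : ℕ) : ℕ := lk2 y0_3 58 t0 i j

noncomputable def e2 (c i j : ℕ) : ℕ := lk2 y0_2 58 t0 i j

noncomputable def n1_2 (c i j : ℕ) : ℕ := cond (okc c 0) (e3 c i j) (e2 c i j)

noncomputable def e1 (c i j : ℕ) : ℕ := lk2 y0_1 58 t0 i j

noncomputable def n1_0 (c i j : ℕ) : ℕ := cond (okc c 0) (e1 c i j) (n0 c i j)

noncomputable def n2_0 (c i j : ℕ) : ℕ := cond (okc c 1) (n1_2 c i j) (n1_0 c i j)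

noncomputable def n3_0 (c i j : ℕ) : ℕ := cond (okc c 2) (n2_4 c i j) (n2_0 c i j)

noncomputable def n4_0 (c i j : ℕ) : ℕ := cond (okc c 3) (n3_8 c i j) (n3_0 c i j)

noncomputable def n5_0 (c i j : ℕ) : ℕ := cond (okc c 4) (n4_16 c i j) (n4_0 c i j)

noncomputable def n6_0 (c i j : ℕ) : ℕ := cond (okc c 5) (n5_32 c i j) (n5_0 c i j)

noncomputable def n7_0 (c i j : ℕ) : ℕ := cond (okc c 6) (n6_64 c i j) (n6_0 c i j)

noncomputable def n8_0 (c i j : ℕ) : ℕ := cond (okc c 7) (n7_128 c i j) (n7_0 c i j)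

noncomputable def q (c i j : ℕ) : ℕ := wl c fun c => wl i fun i => wl j fun j => n8_0 c i j

noncomputable def p (i j : ℕ) : ℕ := wl i fun i => wl j fun j => lk2 y3 29 t3 i j

end Pool.Agent.Helper10.Bt
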