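import Pool.Agent.Helper10.Bt.L0
import Pool.Agent.Helper10.Bt.L1
import Pool.Agent.Helper10.Bt.L2
import Pool.Agent.Helper10.Bt.L3
import Pool.Agent.Helper10.Bt.L4
import Pool.Agent.Helper10.Bt.L5
import Pool.Agent.Helper10.Bt.L6
import Pool.Agent.Helper10.Bt.L7
import Pool.Agent.Helper10.Bt.L8
import Pool.Agent.Helper10.Bt.L9
import Pool.Agent.Helper10.Bt.L10
import Pool.Agent.Helper10.Bt.L11
import Pool.Agent.Helper10.Bt.L12
import Pool.Agent.Helper10.Bt.L13
import Pool.Agent.Helper10.Bt.L14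
import Pool.Agent.Helper10.Bt.L15
import Pool.Agent.Helper10.Bt.L16
import Pool.Agent.Helper10.Bt.L17
import Pool.Agent.Helper10.Bt.L18
import Pool.Agent.Helper10.Bt.L19
import Pool.Agent.Helper10.Bt.L20
import Pool.Agent.Helper10.Bt.L21
import Pool.Agent.Helper10.Bt.L22
import Pool.Agent.Helper10.Bt.L23
import Pool.Agent.Helper10.Bt.L24
import Pool.Agent.Helper10.Bt.L25
import Pool.Agent.Helper10.Bt.L26
import Pool.Agent.Helper10.Bt.L27
import Pool.Agent.Helper10.Bt.L28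
import Pool.Agent.Helper10.Bt.L29
import Pool.Agent.Helper10.Bt.L30
import Pool.Agent.Helper10.Bt.L31
import Pool.Agent.Helper10.Bt.L32
import Pool.Agent.Helper10.Bt.L33
import Pool.Agent.Helper10.Bt.L34
import Pool.Agent.Helper10.Bt.L35
import Pool.Agent.Helper10.Bt.L36
import Pool.Agent.Helper10.Bt.L37
import Pool.Agent.Helper10.Bt.L38
import Pool.Agent.Helper10.Bt.L39
import Pool.Agent.Helper10.Bt.L40
import Pool.Agent.Helper10.Bt.L41
import Pool.Agent.Helper10.Bt.L42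
import Pool.Agent.Helper10.Bt.L43
import Pool.Agent.Helper10.Bt.L44
import Pool.Agent.Helper10.Bt.L45
import Pool.Agent.Helper10.Bt.L46
import Pool.Agent.Helper10.Bt.L47
import Pool.Agent.Helper10.Bt.L48

/-! All structures on six points. -/

set_option autoImplicit false
set_option maxRecDepth 1000000
set_option linter.all false

namespace Pool.Agent.Helper10.Bt
open Pool.Agent.Helper10.Sw

theorem cov0 : (nall 256 fun c => cond (okc 9105446378665370970414495782467130278682685432304100497532396655114461058942 c) (or (okc T0_0 c) (or (okc T1_0 c) (or (okc T2_0 c) (or (okc T3_0 c) (or (okc T4_0 c) (or (okc T4_1 c) (or (okc T5_0 c) (or (okc T5_1 c) (or (okc T6_0 c) (or (okc T6_1 c) (or (okc T7_0 c) (or (okc T7_1 c) (or (okc T8_0 c) (or (okc T8_1 c) (or (okc T9_0 c) (or (okc T9_1 c) (or (okc T10_0 c) (or (okc T10_1 c) (or (okc T11_0 c) (or (okc T11_1 c) (or (okc T12_0 c) (or (okc T13_0 c) (or (okc T14_0 c) (or (okc T14_1 c) (or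 (okc T15_0 c) (or (okc T15_1 c) (or (okc T16_1 c) (or (okc T17_1 c) (or (okc T18_1 c) (or (okc T19_1 c) (or (okc T20_1 c) (or (okc T25_1 c) (or (okc T26_0 c) (or (okc T27_0 c) (or (okc T27_1 c) (or (okc T28_0 c) (or (okc T28_1 c) (or (okc T29_0 c) (or (okc T30_0 c) (or (okc T31_0 c) (or (okc T33_1 c) (or (okc T34_1 c) (or (okc T36_0 c) (or (okc T37_0 c) (or (okc T42_0 c) (okc T43_0 c)))))))))))))))))))))))))))))))))))))))))))))) true) = true := by decide +kernel

theorem cov1 : (nall 256 fun c => cond (okc 9105446378665370970414495782467130278682685432304100497532396655114461058942 c) (or (okc T12_1 c) (or (okc T21_0 c) (or (okc T22_0 c) (or (okc T24_1 c) (or (okc T25_0 c) (or (okc T26_1 c) (or (okc T31_1 c) (or (okc T32_1 c) (or (okc T34_0 c) (or (okc T35_0 c) (or (okc T36_1 c) (or (okc T39_0 c) (or (okc T44_1 c) (or (okc T45_1 c) (or (okc T46_0 c) (okc T48_0 c)))))))))))))))) true) = true := by decide +kernel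

theorem cov2 : (nall 256 fun c => cond (okc 9105446378665370970414495782467130278682685432304100497532396655114461058942 c) (or (okc T19_0 c) (or (okc T20_0 c) (or (okc T22_1 c) (or (okc T23_1 c) (or (okc T24_0 c) (or (okc T30_1 c) (or (okc T32_0 c) (or (okc T33_0 c) (or (okc T35_1 c) (or (okc T37_1 c) (or (okc T38_0 c) (or (okc T39_1 c) (or (okc T45_0 c) (or (okc T47_0 c) (or (okc T47_1 c) (okc T48_1 c)))))))))))))))) true) = true := by decide +kernel

theorem cov3 : (nall 256 fun c => cond (okc 9105446378665370970414495782467130278682685432304100497532396655114461058942 c) (or (okc T13_1 c) (or (okc T16_0 c) (or (okc T17_0 c) (or (okc T18_0 c) (or (okc T21_1 c) (or (okc T23_0 c) (or (okc T29_1 c) (or (okc T38_1 c) (or (okc T40_0 c) (or (okc T40_1 c) (or (okc T41_0 c) (or (okc T41_1 c) (or (okc T42_1 c) (or (okc T43_1 c) (or (okc T44_0 c) (okc T46_1 c)))))))))))))))) true) = true := by decide +kernel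

theorem big : Nat.shiftRight 9105446378665370970414495782467130278682685432304100497532396655114461058942 256 = 0 := by decide +kernel

theorem chk (c v : ℕ) (h : okc 9105446378665370970414495782467130278682685432304100497532396655114461058942 c = true) (hv : v < 4) :
    ∃ T', okc T' c = true ∧ chkAll 9105446378665370970414495782467130278682685432304100497532396655114461058942 1945555039024054272 298318439317021655040 q p T' v = true := by
  have hc : c < 256 := okc_lt big h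
  rcases (by omega : v = 0 ∨ v = 1 ∨ v = 2 ∨ v = 3) with rfl | rfl | rfl | rfl
  · have e := cond_true (nall_true cov0 c hc) h
    simp only [Bool.or_eq_true] at e
    rcases e with e | e | e | e | e | e | e | e | e | e | e | e | e | e | e | e | e | e | e | e | e | e | e | e | e | e | e | e | e | e | e | e | e | e | e | e | e | e | e | e | e | e | e | e | e | e
    · exact ⟨T0_0, e, a0_0⟩
    · exact ⟨T1_0, e, a1_0⟩
    · exact ⟨T2_0, e, a2_0⟩
    · exact ⟨T3_0, e, a3_0⟩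
    · exact ⟨T4_0, e, a4_0⟩
    · exact ⟨T4_1, e, a4_1⟩
    · exact ⟨T5_0, e, a5_0⟩
    · exact ⟨T5_1, e, a5_1⟩
    · exact ⟨T6_0, e, a6_0⟩
    · exact ⟨T6_1, e, a6_1⟩
    · exact ⟨T7_0, e, a7_0⟩
    · exact ⟨T7_1, e, a7_1⟩
    · exact ⟨T8_0, e, a8_0⟩
    · exact ⟨T8_1, e, a8_1⟩
    · exact ⟨T9_0, e, a9_0⟩
    · exact ⟨T9_1, e, a9_1⟩
    · exact ⟨T10_0, e, a10_0⟩
    · exact ⟨T10_1, e, a10_1⟩
    · exact ⟨T11_0, e, a11_0⟩
    · exact ⟨T11_1, e, a11_1⟩
    · exact ⟨T12_0, e, a12_0⟩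
    · exact ⟨T13_0, e, a13_0⟩
    · exact ⟨T14_0, e, a14_0⟩
    · exact ⟨T14_1, e, a14_1⟩
    · exact ⟨T15_0, e, a15_0⟩
    · exact ⟨T15_1, e, a15_1⟩
    · exact ⟨T16_1, e, a16_1⟩
    · exact ⟨T17_1, e, a17_1⟩
    · exact ⟨T18_1, e, a18_1⟩
    · exact ⟨T19_1, e, a19_1⟩
    · exact ⟨T20_1, e, a20_1⟩
    · exact ⟨T25_1, e, a25_1⟩
    · exact ⟨T26_0, e, a26_0⟩
    · exact ⟨T27_0, e, a27_0⟩
    · exact ⟨T27_1, e, a27_1⟩
    · exact ⟨T28_0, e, a28_0⟩
    · exact ⟨T28_1, e, a28_1⟩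
    · exact ⟨T29_0, e, a29_0⟩
    · exact ⟨T30_0, e, a30_0⟩
    · exact ⟨T31_0, e, a31_0⟩
    · exact ⟨T33_1, e, a33_1⟩
    · exact ⟨T34_1, e, a34_1⟩
    · exact ⟨T36_0, e, a36_0⟩
    · exact ⟨T37_0, e, a37_0⟩
    · exact ⟨T42_0, e, a42_0⟩
    · exact ⟨T43_0, e, a43_0⟩
  · have e := cond_true (nall_true cov1 c hc) h
    simp only [Bool.or_eq_true] at e
    rcases e with e | e | e | e | e | e | e | e | e | e | e | e | e | e | e | e
    · exact ⟨T12_1, e, a12_1⟩
    · exact ⟨T21_0, e, a21_0⟩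
    · exact ⟨T22_0, e, a22_0⟩
    · exact ⟨T24_1, e, a24_1⟩
    · exact ⟨T25_0, e, a25_0⟩
    · exact ⟨T26_1, e, a26_1⟩
    · exact ⟨T31_1, e, a31_1⟩
    · exact ⟨T32_1, e, a32_1⟩
    · exact ⟨T34_0, e, a34_0⟩
    · exact ⟨T35_0, e, a35_0⟩
    · exact ⟨T36_1, e, a36_1⟩
    · exact ⟨T39_0, e, a39_0⟩
    · exact ⟨T44_1, e, a44_1⟩
    · exact ⟨T45_1, e, a45_1⟩
    · exact ⟨T46_0, e, a46_0⟩
    · exact ⟨T48_0, e, a48_0⟩
  · have e := cond_true (nall_true cov2 c hc) h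
    simp only [Bool.or_eq_true] at e
    rcases e with e | e | e | e | e | e | e | e | e | e | e | e | e | e | e | e
    · exact ⟨T19_0, e, a19_0⟩
    · exact ⟨T20_0, e, a20_0⟩
    · exact ⟨T22_1, e, a22_1⟩
    · exact ⟨T23_1, e, a23_1⟩
    · exact ⟨T24_0, e, a24_0⟩
    · exact ⟨T30_1, e, a30_1⟩
    · exact ⟨T32_0, e, a32_0⟩
    · exact ⟨T33_0, e, a33_0⟩
    · exact ⟨T35_1, e, a35_1⟩
    · exact ⟨T37_1, e, a37_1⟩
    · exact ⟨T38_0, e, a38_0⟩
    · exact ⟨T39_1, e, a39_1⟩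
    · exact ⟨T45_0, e, a45_0⟩
    · exact ⟨T47_0, e, a47_0⟩
    · exact ⟨T47_1, e, a47_1⟩
    · exact ⟨T48_1, e, a48_1⟩
  · have e := cond_true (nall_true cov3 c hc) h
    simp only [Bool.or_eq_true] at e
    rcases e with e | e | e | e | e | e | e | e | e | e | e | e | e | e | e | e
    · exact ⟨T13_1, e, a13_1⟩
    · exact ⟨T16_0, e, a16_0⟩
    · exact ⟨T17_0, e, a17_0⟩
    · exact ⟨T18_0, e, a18_0⟩
    · exact ⟨T21_1, e, a21_1⟩
    · exact ⟨T23_0, e, a23_0⟩
    · exact ⟨T29_1, e, a29_1⟩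
    · exact ⟨T38_1, e, a38_1⟩
    · exact ⟨T40_0, e, a40_0⟩
    · exact ⟨T40_1, e, a40_1⟩
    · exact ⟨T41_0, e, a41_0⟩
    · exact ⟨T41_1, e, a41_1⟩
    · exact ⟨T42_1, e, a42_1⟩
    · exact ⟨T43_1, e, a43_1⟩
    · exact ⟨T44_0, e, a44_0⟩
    · exact ⟨T46_1, e, a46_1⟩

end Pool.Agent.Helper10.Bt
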